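import Pool.Agent.TH769.TP.Fin

set_option autoImplicit false

/-!
The theorem for a pair of programs.
-/

namespace Pool.Agent.TH769.TP

open Encodable Pool.Agent.Helper227 Pool.Agent.H548R2.Post
open Nat.Partrec (Code)
open Pool.Agent.TH769.ZA (si_gen pf_sub rowG pf_zs pf_wd wd TT neg_succ)
open Pool.Agent.TH769.CD (bdd_lt pf_add pf_mul pf_div pf_mod pf_pow pf_getD pf_take
  pf_append pf_cons pf_length pf_range pf_natPair pf_unpair pf_encode pf_testBit pf_xorb pf_andb
  pf_hlt pf_xor pp_exlt pp_alllt pp_imp pp_eq pp_le pp_lt pp_mem pf_decide pf_pre pp_En pf_ext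
  ext_pre_eq)

attribute [local fun_prop] Primrec
attribute [local fun_prop] Primrec.id Primrec.const Primrec.comp Primrec.pair Primrec.fst Primrec.snd
attribute [local fun_prop] pf_add pf_mul pf_div pf_mod pf_pow pf_getD pf_take pf_append pf_cons
  pf_length pf_range pf_natPair pf_unpair pf_encode pf_testBit pf_xorb pf_andb pf_hlt pf_xor
  pf_sub pf_wd

/-- The program `i` reduces `Y` to `X`: on the inputs `(σ, n)`, `σ` a finite initial segment of
`X`, it outputs the value `Y n` (0 or 1) for at least one `σ`, and never another value. -/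
def Via (i : Code) (X Y : ℕ → Bool) : Prop :=
  ∀ n v : ℕ, (∃ s : ℕ, v ∈ i.eval (encode (pre X s, n))) ↔ v = (Y n).toNat

/-- the value which is found first -/
def fv (i : Code) (σ : List Bool) (n : ℕ) : Option ℕ :=
  ((List.range σ.length).filterMap
    (fun c => Code.evaln c.unpair.1 i (encode (σ.take c.unpair.2, n)))).head?

def Fn (i : Code) (σ : List Bool) : ℕ → List Bool
  | 0 => []
  | n + 1 => cond (decide ((Fn i σ n).length = n))
      (Fn i σ n ++ ((fv i σ n).map (fun v => v == 1)).toList) (Fn i σ n)

def FF (i : Code) (σ : List Bool) : List Bool := Fn i σ σ.length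

section

variable {i : Code}

theorem fv_mono {σ τ : List Bool} (h : σ <+: τ) {n v : ℕ} (hv : fv i σ n = some v) :
    fv i τ n = some v := by
  obtain ⟨ρ, rfl⟩ := h
  unfold fv at hv ⊢
  rw [List.length_append, List.range_add, List.filterMap_append]
  have h1 : (List.range σ.length).filterMap
      (fun c => Code.evaln c.unpair.1 i (encode ((σ ++ ρ).take c.unpair.2, n))) =
      (List.range σ.length).filterMap
      (fun c => Code.evaln c.unpair.1 i (encode (σ.take c.unpair.2, n))) := by
    refine List.filterMap_congr fun c hc => ?_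
    have h2 := Nat.unpair_right_le c
    rw [List.mem_range] at hc
    rw [List.take_append_of_le_length (by omega)]
  rw [h1, List.head?_append, hv]
  rfl

theorem Fn_len (σ : List Bool) (n : ℕ) : (Fn i σ n).length ≤ n := by
  induction n with
  | zero => exact le_rfl
  | succ n ih =>
    rw [Fn]
    by_cases h : (Fn i σ n).length = n
    · rw [decide_eq_true h, cond_true, List.length_append, h]
      cases fv i σ n <;> simp
    · rw [decide_eq_false h, cond_false]
      omega

theorem Fn_succ_prefix (σ : List Bool) (n : ℕ) : Fn i σ n <+: Fn i σ (n + 1) := by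
  rw [Fn]
  cases decide ((Fn i σ n).length = n)
  · exact List.prefix_rfl
  · exact List.prefix_append _ _

theorem Fn_le (σ : List Bool) {n m : ℕ} (h : n ≤ m) : Fn i σ n <+: Fn i σ m := by
  induction m, h using Nat.le_induction with
  | base => exact List.prefix_rfl
  | succ m _ ih => exact ih.trans (Fn_succ_prefix σ m)

theorem Fn_mono {σ τ : List Bool} (h : σ <+: τ) (n : ℕ) : Fn i σ n <+: Fn i τ n := by
  induction n with
  | zero => exact List.prefix_rfl
  | succ n ih =>
    by_cases h1 : (Fn i σ n).length = n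
    · have h2 : Fn i σ n = Fn i τ n := by
        refine ih.eq_of_length (le_antisymm ih.length_le ?_)
        rw [h1]
        exact Fn_len τ n
      rw [Fn, Fn, ← h2, decide_eq_true h1, cond_true, cond_true]
      cases hv : fv i σ n with
      | none =>
        rw [Option.map_none, Option.toList_none, List.append_nil]
        exact List.prefix_append _ _
      | some v => rw [fv_mono h hv]
    · have h2 : Fn i σ (n + 1) = Fn i σ n := by
        rw [Fn, decide_eq_false h1, cond_false]
      rw [h2]
      exact ih.trans (Fn_succ_prefix τ n)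

theorem mon_FF : Mon (FF i) :=
  ⟨fun _ _ h => (Fn_mono h _).trans (Fn_le _ h.length_le), fun σ => Fn_len σ _⟩

theorem pf_fv (i : Code) {β : Type} [Primcodable β] {σ : β → List Bool} {n : β → ℕ}
    (hσ : Primrec σ) (hn : Primrec n) : Primrec fun b => fv i (σ b) (n b) := by
  unfold fv
  refine Primrec.list_head?.comp (Primrec.listFilterMap (pf_range (pf_length hσ)) ?_)
  have h : Primrec fun x : β × ℕ => (((x.2.unpair.1, i), encode ((σ x.1).take x.2.unpair.2, n x.1)) :
      (ℕ × Code) × ℕ) := by fun_prop
  exact Nat.Partrec.Code.primrec_evaln.comp h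

theorem pf_FF (i : Code) : Primrec (FF i) := by
  have hh : Primrec₂ fun (σ : List Bool) (y : ℕ × List Bool) =>
      cond (decide (y.2.length = y.1))
        (y.2 ++ ((fv i σ y.1).map (fun v => v == 1)).toList) y.2 := by
    have h0 : Primrec₂ fun (_ : List Bool × (ℕ × List Bool)) (v : ℕ) => (v == 1) :=
      Primrec.beq.comp Primrec.snd (Primrec.const 1)
    have h1 : Primrec fun x : List Bool × (ℕ × List Bool) =>
        (fv i x.1 x.2.1).map (fun v => v == 1) :=
      Primrec.option_map (pf_fv i (by fun_prop) (by fun_prop)) h0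
    have h2 : Primrec fun x : List Bool × (ℕ × List Bool) =>
        cond (decide (x.2.2.length = x.2.1))
          (x.2.2 ++ ((fv i x.1 x.2.1).map (fun v => v == 1)).toList) x.2.2 :=
      Primrec.cond (pf_decide (pp_eq (by fun_prop) (by fun_prop)) _)
        (pf_append (by fun_prop) (Primrec.optionToList.comp h1)) (by fun_prop)
    exact h2
  have h := Primrec.nat_rec' (f := fun σ : List Bool => σ.length)
    (g := fun _ => ([] : List Bool)) (pf_length Primrec.id) (Primrec.const []) hh
  refine h.of_eq fun σ => ?_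
  unfold FF
  generalize σ.length = n
  induction n with
  | zero => rfl
  | succ n ih =>
    change _ = cond (decide ((Fn i σ n).length = n))
      (Fn i σ n ++ ((fv i σ n).map (fun v => v == 1)).toList) (Fn i σ n)
    rw [← ih]

variable {X Y : ℕ → Bool}

theorem fv_val (h : Via i X Y) {s n v : ℕ} (hv : fv i (pre X s) n = some v) :
    v = (Y n).toNat := by
  unfold fv at hv
  have h1 := List.mem_of_head? hv
  obtain ⟨c, hc, h2⟩ := List.mem_filterMap.1 h1
  rw [List.mem_range, length_pre] at hc
  have h3 := Nat.unpair_right_le c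
  rw [take_pre _ _ _ (by omega)] at h2
  exact (h n v).1 ⟨_, Code.evaln_sound h2⟩

theorem fv_ex (h : Via i X Y) (n : ℕ) : ∃ M, ∀ s ≥ M, fv i (pre X s) n = some (Y n).toNat := by
  obtain ⟨s0, h1⟩ := (h n (Y n).toNat).2 rfl
  obtain ⟨k, h2⟩ := Code.evaln_complete.1 h1
  refine ⟨Nat.pair k s0 + 1, fun s hs => ?_⟩
  have h3 : fv i (pre X s) n ≠ none := by
    unfold fv
    rw [Ne, List.head?_eq_none_iff]
    intro h4
    have h5 : (Y n).toNat ∈ (List.range (pre X s).length).filterMap
        (fun c => Code.evaln c.unpair.1 i (encode ((pre X s).take c.unpair.2, n))) := by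
      refine List.mem_filterMap.2 ⟨Nat.pair k s0, ?_, ?_⟩
      · rw [List.mem_range, length_pre]
        omega
      · have h6 := Nat.right_le_pair k s0
        rw [Nat.unpair_pair, take_pre _ _ _ (by simp only; omega)]
        exact h2
    rw [h4] at h5
    exact absurd h5 (List.not_mem_nil)
  obtain ⟨v, hv⟩ := Option.ne_none_iff_exists'.1 h3
  rw [hv, fv_val h hv]

theorem toNat_beq (b : Bool) : (b.toNat == 1) = b := by cases b <;> rfl

theorem Fn_ok (h : Via i X Y) (s n : ℕ) : ∃ n' ≤ n, Fn i (pre X s) n = pre Y n' := by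
  induction n with
  | zero => exact ⟨0, le_rfl, rfl⟩
  | succ n ih =>
    obtain ⟨n', h1, h2⟩ := ih
    rw [Fn, h2, length_pre]
    by_cases hn : n' = n
    · subst hn
      rw [decide_eq_true rfl, cond_true]
      cases hv : fv i (pre X s) n' with
      | none => exact ⟨n', by omega, by simp⟩
      | some v =>
        refine ⟨n' + 1, le_rfl, ?_⟩
        rw [pre_succ, fv_val h hv, Option.map_some, toNat_beq]
        rfl
    · rw [decide_eq_false hn, cond_false]
      exact ⟨n', by omega, rfl⟩

theorem Fn_full {s N : ℕ}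
    (hs : ∀ n < N, fv i (pre X s) n = some (Y n).toNat) : Fn i (pre X s) N = pre Y N := by
  induction N with
  | zero => rfl
  | succ N ih =>
    rw [Fn, ih fun n hn => hs n (by omega), length_pre, decide_eq_true rfl, cond_true, pre_succ,
      hs N (Nat.lt_succ_self N), Option.map_some, toNat_beq]
    rfl

theorem lim_FF (h : Via i X Y) : Lim (FF i) X Y := by
  refine ⟨fun s => ?_, fun N => ?_⟩
  · obtain ⟨n', -, h1⟩ := Fn_ok h s (pre X s).length
    exact ⟨n', h1⟩
  · obtain ⟨a, ha⟩ := bdd_lt N (fun n s => fv i (pre X s) n = some (Y n).toNat)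
      (fun n _ => fv_ex h n)
    refine ⟨max N a, fun s hs => ?_⟩
    have h1 := Fn_full (s := s) (N := N) fun n hn => ha n hn s (by omega)
    have h2 := (Fn_le (i := i) (pre X s) (n := N) (m := (pre X s).length)
      (by rw [length_pre]; omega)).length_le
    rw [h1, length_pre] at h2
    exact h2

end

/-- Turing reducibility is reducibility by some program. -/
theorem via_iff (X Y : ℕ → Bool) : TLe Y X ↔ ∃ i : Code, Via i X Y := by
  constructor
  · intro h
    obtain ⟨E, hE, -, eE⟩ := tLe_iff_SI.1 h
    obtain ⟨q, ⟨hd, hq⟩, -, eq'⟩ := hE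
    obtain ⟨Q, hQ, hQq⟩ : ∃ Q : (List Bool × (ℕ × Bool)) → ℕ → Bool,
        Primrec₂ Q ∧ ∀ x k, q x k ↔ Q x k = true :=
      ⟨fun x k => @decide (q x k) (hd (x, k)), hq,
        fun x k => (@decide_eq_true_iff (q x k) (hd (x, k))).symm⟩
    have eq : ∀ x, E x ↔ ∃ k, Q x k = true := fun x =>
      (eq' x).trans (exists_congr fun k => hQq x k)
    have hq' : ∀ b : Bool, Computable₂ fun (x : List Bool × ℕ) (k : ℕ) => Q (x.1, (x.2, b)) k := by
      intro b
      have h1 : Primrec fun y : (List Bool × ℕ) × ℕ => (y.1.1, (y.1.2, b)) := by fun_prop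
      exact (hQ.comp h1 Primrec.snd).to_comp
    have hor : Computable₂ fun (x : List Bool × ℕ) (k : ℕ) =>
        (Q (x.1, (x.2, true)) k || Q (x.1, (x.2, false)) k) :=
      (Primrec.dom_bool₂ or).to_comp.comp (hq' true) (hq' false)
    have h1 : Partrec fun x : List Bool × ℕ => Nat.rfind fun k => Part.some
        (Q (x.1, (x.2, true)) k || Q (x.1, (x.2, false)) k) :=
      Partrec.rfind hor.partrec₂
    have h2 : Partrec fun x : List Bool × ℕ => (Nat.rfind fun k => Part.some
        (Q (x.1, (x.2, true)) k || Q (x.1, (x.2, false)) k)).map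
        (fun k => cond (Q (x.1, (x.2, true)) k) 1 0) :=
      Partrec.map h1 (Computable.cond (hq' true) (Computable.const 1) (Computable.const 0))
    obtain ⟨c, hc⟩ := Nat.Partrec.Code.exists_code.1 h2
    have hev : ∀ (σ : List Bool) (n v : ℕ), v ∈ c.eval (encode (σ, n)) ↔
        v ∈ (Nat.rfind fun k => Part.some
        (Q (σ, (n, true)) k || Q (σ, (n, false)) k)).map
        (fun k => cond (Q (σ, (n, true)) k) 1 0) := by
      intro σ n v
      rw [hc]
      simp
    have key : ∀ s n v, v ∈ c.eval (encode (pre X s, n)) → v = (Y n).toNat := by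
      intro s n v hv
      rw [hev, Part.mem_map_iff] at hv
      obtain ⟨k, hk, rfl⟩ := hv
      have h3 := Nat.rfind_spec hk
      have h4 : (Q (pre X s, (n, true)) k || Q (pre X s, (n, false)) k) = true :=
        (Part.mem_some_iff.1 h3).symm
      cases h5 : Q (pre X s, (n, true)) k with
      | true =>
        have h6 : Y n = true := (eE (n, true)).2 ⟨s, (eq _).2 ⟨k, h5⟩⟩
        rw [h6]
        rfl
      | false =>
        rw [h5, Bool.false_or] at h4
        have h6 : Y n = false := (eE (n, false)).2 ⟨s, (eq _).2 ⟨k, h4⟩⟩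
        rw [h6]
        rfl
    refine ⟨c, fun n v => ⟨fun ⟨s, hs⟩ => key s n v hs, fun hv => ?_⟩⟩
    obtain ⟨s, hs⟩ := (eE (n, Y n)).1 rfl
    obtain ⟨k, hk⟩ := (eq _).1 hs
    have hdom : (c.eval (encode (pre X s, n))).Dom := by
      have h3 : (Nat.rfind fun k => Part.some
        (Q (pre X s, (n, true)) k || Q (pre X s, (n, false)) k)).Dom := by
        refine Nat.rfind_dom.2 ⟨k, Part.mem_some_iff.2 ?_, fun _ => trivial⟩
        cases hY : Y n with
        | true =>
          rw [hY] at hk
          rw [hk, Bool.true_or]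
        | false =>
          rw [hY] at hk
          rw [hk, Bool.or_true]
      obtain ⟨k', hk'⟩ := Part.dom_iff_mem.1 h3
      exact Part.dom_iff_mem.2 ⟨_, (hev _ _ _).2 (Part.mem_map _ hk')⟩
    obtain ⟨v', hv'⟩ := Part.dom_iff_mem.1 hdom
    have := key s n v' hv'
    rw [hv, ← this]
    exact ⟨s, hv'⟩
  · rintro ⟨i, hi⟩
    exact (lim_FF hi).le (pf_FF i)

/-- For each pair of programs `i`, `j` there is a solution to Post's problem which is invariant
for all pairs of oracles which are reduced to each other by `i` and `j`. -/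
theorem main (i j : Code) : ∃ e : ℕ,
    (∀ X : ℕ → Bool, TLe X (chr (WE X e)) ∧ ¬ TLe (chr (WE X e)) X ∧
      TLe (chr (WE X e)) (jump X) ∧ ¬ TLe (jump X) (chr (WE X e)) ∧
      TLe (jump (chr (WE X e))) (jump X)) ∧
    ∀ X Y : ℕ → Bool, Via i X Y → Via j Y X →
      TLe (chr (WE X e)) (chr (WE Y e)) ∧ TLe (chr (WE Y e)) (chr (WE X e)) := by
  obtain ⟨e, h1, h2⟩ := main_str (mon_FF (i := i)) (mon_FF (i := j)) (pf_FF i) (pf_FF j)
  exact ⟨e, h1, fun X Y hXY hYX => h2 X Y (lim_FF hXY) (lim_FF hYX)⟩

end Pool.Agent.TH769.TP
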