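import Pool.Agent.TH769.TP.Cod

set_option autoImplicit false

/-!
One index for all pairs of programs, which are given by a label.
-/

namespace Pool.Agent.TH769.TP

open Encodable Pool.Agent.Helper227 Pool.Agent.H548R2.Post
open Nat.Partrec (Code)
open Pool.Agent.TH769.ZA (pf_sub)
open Pool.Agent.TH769.CD (pf_add pf_take pf_length pp_eq pp_le pp_lt pf_decide pf_append pf_cons
  pf_encode)

attribute [local fun_prop] Primrec
attribute [local fun_prop] Primrec.id Primrec.const Primrec.comp Primrec.pair Primrec.fst Primrec.snd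
attribute [local fun_prop] pf_add pf_take pf_length pf_sub pf_append pf_cons pf_encode

/-- The sequence `0ⁿ 1 X`. -/
def lab (n : ℕ) (X : ℕ → Bool) : ℕ → Bool := fun k =>
  if k < n then false else if k = n then true else X (k - n - 1)

theorem pre_lab_lt (X : ℕ → Bool) {n s : ℕ} (h : s ≤ n) : pre (lab n X) s = List.replicate s false := by
  refine List.ext_getElem (by simp) fun k h1 h2 => ?_
  rw [getElem_pre, List.getElem_replicate]
  rw [length_pre] at h1
  unfold lab
  rw [if_pos (by omega)]

theorem pre_lab (X : ℕ → Bool) (n s : ℕ) :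
    pre (lab n X) (n + 1 + s) = List.replicate n false ++ true :: pre X s := by
  refine List.ext_getElem (by simp; omega) fun k h1 h2 => ?_
  rw [getElem_pre]
  rw [length_pre] at h1
  unfold lab
  by_cases h3 : k < n
  · rw [if_pos h3, List.getElem_append_left (by simpa using h3), List.getElem_replicate]
  · rw [if_neg h3, List.getElem_append_right (by simpa using h3)]
    simp only [List.length_replicate]
    by_cases h4 : k = n
    · subst h4
      simp
    · rw [if_neg h4, List.getElem_cons, dif_neg (by omega), getElem_pre]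

theorem lab_le (n : ℕ) (X : ℕ → Bool) : TLe (lab n X) X := by
  have h : Lim (fun σ => (List.replicate n false ++ true :: σ).take σ.length) X (lab n X) := by
    have h1 : ∀ s, (List.replicate n false ++ true :: pre X s).take (pre X s).length =
        pre (lab n X) s := by
      intro s
      rw [← pre_lab, length_pre, take_pre _ _ _ (by omega)]
    refine ⟨fun s => ⟨s, h1 s⟩, fun N => ⟨N, fun s hs => ?_⟩⟩
    rw [h1, length_pre]
    exact hs
  exact h.le (by fun_prop)

theorem le_lab (n : ℕ) (X : ℕ → Bool) : TLe X (lab n X) := by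
  refine tLe_of_computable (f := fun k => k + (n + 1)) (Primrec.to_comp (by fun_prop)) fun k => ?_
  unfold lab
  rw [if_neg (by omega), if_neg (by omega)]
  congr 1
  omega

/-- the label of a string -/
def lb (σ : List Bool) : ℕ := σ.findIdx id

theorem pf_lb : Primrec lb := by
  have h : Primrec₂ fun (_ : List Bool) (b : Bool) => id b := Primrec.snd
  exact Primrec.list_findIdx Primrec.id h

theorem lb_lt (X : ℕ → Bool) {n s : ℕ} (h : s ≤ n) : ¬ lb (pre (lab n X) s) < (pre (lab n X) s).length := by
  rw [pre_lab_lt X h]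
  unfold lb
  rw [List.findIdx_lt_length]
  rintro ⟨b, h1, h2⟩
  rw [List.eq_of_mem_replicate h1] at h2
  exact absurd h2 (by simp)

theorem lb_eq (X : ℕ → Bool) (n s : ℕ) : lb (pre (lab n X) (n + 1 + s)) = n := by
  rw [pre_lab]
  unfold lb
  induction n with
  | zero => simp [List.findIdx_cons]
  | succ n ih => simpa [List.replicate_succ, List.findIdx_cons] using ih

/-- The value of the universal program. -/
noncomputable def uv (sel : Code × Code → Code) (x : List Bool × ℕ) : Part ℕ :=
  cond (decide (lb x.1 < x.1.length))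
    (cond (decide (x.2 ≤ lb x.1)) (Part.some (cond (decide (x.2 = lb x.1)) 1 0))
      ((sel ((decode (α := Code × Code) (lb x.1)).getD (Code.zero, Code.zero))).eval
        (encode (x.1.drop (lb x.1 + 1), x.2 - lb x.1 - 1)))) Part.none

theorem pr_uv {sel : Code × Code → Code} (hs : Computable sel) : Partrec (uv sel) := by
  have h0 : Primrec fun x : List Bool × ℕ => lb x.1 := pf_lb.comp Primrec.fst
  have h1 : Computable fun x : List Bool × ℕ => decide (lb x.1 < x.1.length) :=
    (pf_decide (pp_lt h0 (by fun_prop)) _).to_comp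
  have h2 : Computable fun x : List Bool × ℕ => decide (x.2 ≤ lb x.1) :=
    (pf_decide (pp_le (by fun_prop) h0) _).to_comp
  have h3 : Computable fun x : List Bool × ℕ => cond (decide (x.2 = lb x.1)) 1 0 :=
    (Primrec.cond (pf_decide (pp_eq (by fun_prop) h0) _) (Primrec.const 1)
      (Primrec.const 0)).to_comp
  have h4 : Computable fun x : List Bool × ℕ =>
      (decode (α := Code × Code) (lb x.1)).getD (Code.zero, Code.zero) :=
    (Primrec.option_getD.comp (Primrec.decode.comp h0) (Primrec.const _)).to_comp
  have h5 : Computable fun x : List Bool × ℕ =>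
      encode (x.1.drop (lb x.1 + 1), x.2 - lb x.1 - 1) := by
    have h6 : Primrec fun x : List Bool × ℕ => x.1.drop (lb x.1 + 1) :=
      Primrec.list_drop.comp (pf_add h0 (by fun_prop)) Primrec.fst
    have h7 : Primrec fun x : List Bool × ℕ => x.2 - lb x.1 - 1 :=
      pf_sub (pf_sub Primrec.snd h0) (Primrec.const 1)
    exact (Primrec.encode.comp (h6.pair h7)).to_comp
  exact Partrec.cond h1 (Partrec.cond h2 h3.partrec (Code.eval_part.comp (hs.comp h4) h5))
    Partrec.none

theorem exists_uni {sel : Code × Code → Code} (hs : Computable sel) : ∃ c : Code,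
    ∀ (i j : Code) (X Y : ℕ → Bool), Via (sel (i, j)) X Y →
      Via c (lab (encode (i, j)) X) (lab (encode (i, j)) Y) := by
  obtain ⟨c, hc⟩ := Nat.Partrec.Code.exists_code.1 (pr_uv hs)
  have hev : ∀ (σ : List Bool) (m v : ℕ), v ∈ c.eval (encode (σ, m)) ↔ v ∈ uv sel (σ, m) := by
    intro σ n v
    rw [hc]
    simp
  refine ⟨c, fun i j X Y h m v => ?_⟩
  generalize hn : encode (i, j) = n
  have h1 : ∀ s, s ≤ n → v ∉ uv sel (pre (lab n X) s, m) := by
    intro s hs hv
    unfold uv at hv
    simp only at hv
    rw [decide_eq_false (lb_lt X hs), cond_false] at hv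
    exact Part.notMem_none _ hv
  have h2 : ∀ s, uv sel (pre (lab n X) (n + 1 + s), m) =
      cond (decide (m ≤ n)) (Part.some (cond (decide (m = n)) 1 0))
        ((sel (i, j)).eval (encode (pre X s, m - n - 1))) := by
    intro s
    unfold uv
    simp only
    rw [lb_eq, decide_eq_true (p := n < _) (by rw [length_pre]; omega), cond_true, ← hn, encodek,
      Option.getD_some, hn, pre_lab]
    congr 4
    rw [List.drop_append]
    simp
  have h3 : (∃ s, v ∈ c.eval (encode (pre (lab n X) s, m))) ↔
      ∃ s, v ∈ cond (decide (m ≤ n)) (Part.some (cond (decide (m = n)) 1 0))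
        ((sel (i, j)).eval (encode (pre X s, m - n - 1))) := by
    constructor
    · rintro ⟨s, hs⟩
      rw [hev] at hs
      rcases Nat.lt_or_ge n s with h4 | h4
      · obtain ⟨t, rfl⟩ : ∃ t, s = n + 1 + t := ⟨s - (n + 1), by omega⟩
        rw [h2] at hs
        exact ⟨t, hs⟩
      · exact absurd hs (h1 s h4)
    · rintro ⟨s, hs⟩
      refine ⟨n + 1 + s, ?_⟩
      rw [hev, h2]
      exact hs
  rw [h3]
  unfold lab
  rcases Nat.lt_trichotomy m n with h4 | h4 | h4
  · rw [if_pos h4]
    simp only [decide_eq_true h4.le, cond_true, decide_eq_false h4.ne, cond_false,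
      Part.mem_some_iff, exists_const, Bool.toNat_false]
  · rw [if_neg (by omega), if_pos h4]
    simp only [decide_eq_true h4.le, cond_true, decide_eq_true h4,
      Part.mem_some_iff, exists_const, Bool.toNat_true]
  · rw [if_neg (by omega), if_neg (by omega)]
    simp only [decide_eq_false (not_le.2 h4), cond_false]
    exact h (m - n - 1) v

/-- One index for all pairs of programs. -/
theorem main_lab : ∃ e : ℕ,
    (∀ (n : ℕ) (X : ℕ → Bool), TLe X (chr (WE (lab n X) e)) ∧ ¬ TLe (chr (WE (lab n X) e)) X ∧
      TLe (chr (WE (lab n X) e)) (jump X) ∧ ¬ TLe (jump X) (chr (WE (lab n X) e)) ∧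
      TLe (jump (chr (WE (lab n X) e))) (jump X)) ∧
    ∀ (i j : Code) (X Y : ℕ → Bool), Via i X Y → Via j Y X →
      TLe (chr (WE (lab (encode (i, j)) X) e)) (chr (WE (lab (encode (i, j)) Y) e)) ∧
      TLe (chr (WE (lab (encode (i, j)) Y) e)) (chr (WE (lab (encode (i, j)) X) e)) := by
  obtain ⟨c, hc⟩ := exists_uni (sel := Prod.fst) Computable.fst
  obtain ⟨d, hd⟩ := exists_uni (sel := Prod.snd) Computable.snd
  obtain ⟨e, h1, h2⟩ := main c d
  refine ⟨e, fun n X => ?_, fun i j X Y hi hj => h2 _ _ (hc i j X Y hi) (hd i j Y X hj)⟩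
  obtain ⟨a1, a2, a3, a4, a5⟩ := h1 (lab n X)
  have l1 := lab_le n X
  have l2 := le_lab n X
  exact ⟨l2.trans a1, fun h => a2 (h.trans l2), a3.trans l1.jump,
    fun h => a4 (l1.jump.trans h), a5.trans l1.jump⟩

end Pool.Agent.TH769.TP
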