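import Pool.Agent.TH769.TP.Op

set_option autoImplicit false

/-!
The theorem for a pair of functionals on finite strings.
-/

namespace Pool.Agent.TH769.TP

open Encodable Pool.Agent.Helper227 Pool.Agent.H548R2.Post
open Nat.Partrec (Code)
open Pool.Agent.TH769.ZA (si_gen pf_sub rowG pf_zs pf_wd wd TT neg_succ)
open Pool.Agent.TH769.CD (bdd_lt pf_add pf_mul pf_div pf_mod pf_pow pf_getD pf_take
  pf_append pf_cons pf_length pf_range pf_natPair pf_unpair pf_encode pf_testBit pf_xorb pf_andb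
  pf_hlt pf_xor pp_exlt pp_alllt pp_imp pp_eq pp_le pp_lt pp_mem pf_decide pf_pre pp_En pf_ext
  ext_pre_eq)

attribute [local fun_prop] Primrec
attribute [local fun_prop] Primrec.id Primrec.const Primrec.comp Primrec.pair Primrec.fst Primrec.snd
attribute [local fun_prop] pf_add pf_mul pf_div pf_mod pf_pow pf_getD pf_take pf_append pf_cons
  pf_length pf_range pf_natPair pf_unpair pf_encode pf_testBit pf_xorb pf_andb pf_hlt pf_xor
  pf_sub pf_wd

/-! The shift of the sequences indexed by the integers. -/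

def nx (n : ℕ) : ℕ := Nat.pair (encode (Denumerable.ofNat ℤ n.unpair.1 + 1)) n.unpair.2

def pv (n : ℕ) : ℕ := Nat.pair (encode (Denumerable.ofNat ℤ n.unpair.1 - 1)) n.unpair.2

theorem nx_pv (n : ℕ) : nx (pv n) = n := by
  unfold nx pv
  simp only [Nat.unpair_pair, Denumerable.ofNat_encode, sub_add_cancel, Denumerable.encode_ofNat,
    Nat.pair_unpair]

theorem pf_nx : Primrec nx := by
  unfold nx
  refine pf_natPair (pf_encode (pf_zs ?_)) (by fun_prop)
  exact (Primrec.ofNat ℤ).comp (by fun_prop)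

theorem pf_pv : Primrec pv := by
  unfold pv
  refine pf_natPair (pf_encode ?_) (by fun_prop)
  have h : Primrec fun n : ℕ => wd (Denumerable.ofNat ℤ n.unpair.1) 1 0 :=
    pf_wd ((Primrec.ofNat ℤ).comp (by fun_prop)) (by fun_prop) (by fun_prop)
  refine h.of_eq fun n => ?_
  unfold wd
  omega

/-- a solution which is invariant under the shift -/
theorem exists_shift : ∃ e : ℕ,
    (∀ X : ℕ → Bool, TLe X (chr (WE X e)) ∧ ¬ TLe (chr (WE X e)) X ∧
      TLe (chr (WE X e)) (jump X) ∧ ¬ TLe (jump X) (chr (WE X e)) ∧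
      TLe (jump (chr (WE X e))) (jump X)) ∧
    ∀ X : ℕ → Bool, TLe (chr (WE X e)) (chr (WE (fun n => X (nx n)) e)) ∧
      TLe (chr (WE (fun n => X (nx n)) e)) (chr (WE X e)) := by
  have hd : ∀ f : ℕ → ℕ, Primrec f → Computable₂ fun (n : ℕ) (σ : List Bool) =>
      σ.getD (f n) false := by
    intro f hf
    have h : Primrec fun x : ℕ × List Bool => x.2.getD (f x.1) false :=
      pf_getD (by fun_prop) (hf.comp Primrec.fst)
    exact h.to_comp
  have hu : ∀ f : ℕ → ℕ, Primrec f → Computable fun n : ℕ => f n + 1 := by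
    intro f hf
    have h : Primrec fun n : ℕ => f n + 1 := pf_add hf (by fun_prop)
    exact h.to_comp
  have hT : ∀ (f : ℕ → ℕ) (X : ℕ → Bool), TT (fun n σ => σ.getD (f n) false) (fun n => f n + 1) X =
      fun n => X (f n) := by
    intro f X
    funext n
    exact pre_getD _ _ _ _ (Nat.lt_succ_self _)
  obtain ⟨e, h1, h2⟩ := Pool.Agent.TH769.ZA.main (fun n σ => σ.getD (nx n) false)
    (fun n σ => σ.getD (pv n) false) (fun n => nx n + 1) (fun n => pv n + 1) (hd nx pf_nx)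
    (hd pv pf_pv) (hu nx pf_nx) (hu pv pf_pv)
  refine ⟨e, h1, fun X => ?_⟩
  have h3 := h2 X (by
    rw [hT, hT]
    funext n
    show X (nx (pv n)) = X n
    rw [nx_pv])
  rw [hT] at h3
  exact h3

/-! The index. -/

theorem index_S1 {F G : List Bool → List Bool} (pF : Primrec F) (pG : Primrec G) (e : ℕ) :
    S1 fun x : List Bool × ℕ => (x.2 % 4 = 0 ∧ x.1[x.2 / 4]? = some true) ∨
    (x.2 % 4 = 1 ∧ Mx e (fun n σ => G^[n] σ) (LL F G) x.1 (x.2 / 4)) ∨
    (x.2 % 4 = 2 ∧ Mx e (fun n σ => F^[n] σ) (RR F G) x.1 (x.2 / 4)) ∨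
    (x.2 % 4 = 3 ∧ Mx e (fun _ σ => JJ F G σ) (II F G) x.1 (x.2 / 4)) := by
  refine S1.of_prim (PrimrecPred.or (PrimrecPred.and (pp_eq (by fun_prop) (by fun_prop))
    (pp_eq (Primrec.list_getElem?.comp (by fun_prop) (by fun_prop)) (by fun_prop)))
    (PrimrecPred.or (PrimrecPred.and (pp_eq (by fun_prop) (by fun_prop)) ?_)
    (PrimrecPred.or (PrimrecPred.and (pp_eq (by fun_prop) (by fun_prop)) ?_)
    (PrimrecPred.and (pp_eq (by fun_prop) (by fun_prop)) ?_))))
  · exact pp_Mx e (pH1 pG) (pR1 pF pG) (by fun_prop) (by fun_prop)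
  · exact pp_Mx e (pH2 pF) (pp_RR pF pG) (by fun_prop) (by fun_prop)
  · exact pp_Mx e (pH3 pF pG) (pp_II pF pG) (by fun_prop) (by fun_prop)

theorem exists_index {F G : List Bool → List Bool} (pF : Primrec F) (pG : Primrec G) (e : ℕ) :
    ∃ e' : ℕ, ∀ X : ℕ → Bool, WE X e' = {m | WP e F G X m = true} := by
  obtain ⟨c, hc⟩ := Nat.Partrec.Code.exists_code.1 (index_S1 pF pG e).re
  refine ⟨encode c, fun X => ?_⟩
  ext m
  simp only [WE, Set.mem_ofPred_eq, Denumerable.ofNat_encode]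
  rw [WP_iff]
  have h1 : (∃ k : ℕ, (c.eval (encode ((List.range k).map X, m))).Dom) ↔
      ∃ k : ℕ, (m % 4 = 0 ∧ (pre X k)[m / 4]? = some true) ∨
      (m % 4 = 1 ∧ Mx e (fun n σ => G^[n] σ) (LL F G) (pre X k) (m / 4)) ∨
      (m % 4 = 2 ∧ Mx e (fun n σ => F^[n] σ) (RR F G) (pre X k) (m / 4)) ∨
      (m % 4 = 3 ∧ Mx e (fun _ σ => JJ F G σ) (II F G) (pre X k) (m / 4)) := by
    refine exists_congr fun k => ?_
    rw [hc]
    simp [Part.assert, pre]
  rw [h1]
  unfold UW U1 U2 U3 UU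
  constructor
  · rintro ⟨k, ⟨h, h'⟩ | ⟨h, h'⟩ | ⟨h, h'⟩ | ⟨h, h'⟩⟩
    · refine Or.inl ⟨h, ?_⟩
      by_cases hk : m / 4 < k
      · rw [pre_getElem? _ _ _ hk] at h'
        simpa using h'
      · rw [pre_getElem?_none _ _ _ (by omega)] at h'
        cases h'
    · exact Or.inr (Or.inl ⟨h, k, h'⟩)
    · exact Or.inr (Or.inr (Or.inl ⟨h, k, h'⟩))
    · exact Or.inr (Or.inr (Or.inr ⟨h, k, h'⟩))
  · rintro (⟨h, h'⟩ | ⟨h, k, h'⟩ | ⟨h, k, h'⟩ | ⟨h, k, h'⟩)
    · exact ⟨m / 4 + 1, Or.inl ⟨h, by rw [pre_getElem? _ _ _ (Nat.lt_succ_self _), h']⟩⟩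
    · exact ⟨k, Or.inr (Or.inl ⟨h, h'⟩)⟩
    · exact ⟨k, Or.inr (Or.inr (Or.inl ⟨h, h'⟩))⟩
    · exact ⟨k, Or.inr (Or.inr (Or.inr ⟨h, h'⟩))⟩

theorem chr_WP {e : ℕ} {F G : List Bool → List Bool} {X : ℕ → Bool} :
    chr {m | WP e F G X m = true} = WP e F G X := by
  funext m
  simp [chr]

/-! The cases. -/

section

variable {F G : List Bool → List Bool} {e : ℕ} {X Y : ℕ → Bool}
  (hF : Mon F) (hG : Mon G) (pF : Primrec F) (pG : Primrec G)
  (hp : ∀ Z : ℕ → Bool, TLe Z (chr (WE Z e)))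

include hF hG pF pG hp

/-- the case of the chains which are infinite in both directions -/
theorem rp_all (h0 : ∀ q, Unb (AG F G q) X) (h1 : ∀ q, Unb (AG G F q) X) {Yk : ℕ → ℕ → Bool}
    (hY : ∀ k, Lim (fun σ => rowG F G σ k) X (Yk k)) :
    Rp e F G X fun m => Yk m.unpair.1 m.unpair.2 := by
  refine caseI hF hG pF pG hp h0 h1 (JJ_lim hF hG hY ((unb_II hF hG).2 ⟨h0, h1⟩)) ?_
  have hf : Computable fun n : ℕ => Nat.pair 0 n := by
    have : Primrec fun n : ℕ => Nat.pair 0 n := by fun_prop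
    exact this.to_comp
  refine tLe_of_computable hf fun n => ?_
  simp only [Nat.unpair_pair]
  rw [← (Lim.id X).unique (hY 0)]

theorem exists_rp (X : ℕ → Bool) : ∃ Z, Rp e F G X Z := by
  classical
  by_cases h1 : ∃ a, ¬ Unb (AG F G a) X
  · have h2 := Nat.find_spec h1
    have h3 : ∀ q < Nat.find h1, Unb (AG F G q) X := fun q hq => not_not.1 (Nat.find_min h1 hq)
    obtain ⟨Z, hZ⟩ := lim_iter hF hG h3
    exact ⟨Z, caseL hF hG pF pG hp h3 h2 hZ⟩
  push Not at h1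
  by_cases h4 : ∃ b, ¬ Unb (AG G F b) X
  · have h2 := Nat.find_spec h4
    have h3 : ∀ q < Nat.find h4, Unb (AG G F q) X := fun q hq => not_not.1 (Nat.find_min h4 hq)
    obtain ⟨Z, hZ⟩ := lim_iter hG hF h3
    exact ⟨Z, caseR hF hG pF pG hp h1 h3 h2 hZ⟩
  push Not at h4
  choose Yk hY using rows_exist hF hG h1 h4
  exact ⟨_, rp_all hF hG pF pG hp h1 h4 hY⟩

theorem next_rp (hXY : Lim F X Y) (hYX : Lim G Y X) : ∃ Z Z', Rp e F G X Z ∧ Rp e F G Y Z' ∧
    (Z' = Z ∨ Z' = fun n => Z (nx n)) := by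
  classical
  have hzY : Unb (AG F G 0) Y := unb_zero_next hXY hYX
  have hzX : Unb (AG G F 0) X := unb_zero_next hYX hXY
  have hnY : ∀ q, Unb (AG F G (q + 1)) Y ↔ Unb (AG F G q) X := fun q =>
    unb_succ_next hF hG hYX
  have hnX : ∀ q, Unb (AG G F (q + 1)) X ↔ Unb (AG G F q) Y := fun q =>
    unb_succ_next hG hF hXY
  by_cases h1 : ∃ a, ¬ Unb (AG F G a) X
  · have h2 := Nat.find_spec h1
    have h3 : ∀ q < Nat.find h1, Unb (AG F G q) X := fun q hq => not_not.1 (Nat.find_min h1 hq)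
    generalize Nat.find h1 = a at h2 h3
    obtain ⟨Z, hZ⟩ := lim_iter hF hG h3
    refine ⟨Z, Z, caseL hF hG pF pG hp h3 h2 hZ, ?_, Or.inl rfl⟩
    refine caseL hF hG pF pG hp (a := a + 1) (fun q hq => ?_) (fun h => h2 ((hnY a).1 h))
      (lim_next hYX hZ)
    cases q with
    | zero => exact hzY
    | succ q => exact (hnY q).2 (h3 q (by omega))
  push Not at h1
  have h1Y : ∀ q, Unb (AG F G q) Y := by
    intro q
    cases q with
    | zero => exact hzY
    | succ q => exact (hnY q).2 (h1 q)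
  by_cases h4 : ∃ b, ¬ Unb (AG G F b) Y
  · have h2 := Nat.find_spec h4
    have h3 : ∀ q < Nat.find h4, Unb (AG G F q) Y := fun q hq => not_not.1 (Nat.find_min h4 hq)
    generalize Nat.find h4 = b at h2 h3
    obtain ⟨Z, hZ⟩ := lim_iter hG hF h3
    refine ⟨Z, Z, ?_, caseR hF hG pF pG hp h1Y h3 h2 hZ, Or.inl rfl⟩
    refine caseR hF hG pF pG hp (b := b + 1) h1 (fun q hq => ?_) (fun h => h2 ((hnX b).1 h))
      (lim_next hXY hZ)
    cases q with
    | zero => exact hzX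
    | succ q => exact (hnX q).2 (h3 q (by omega))
  push Not at h4
  have h4X : ∀ q, Unb (AG G F q) X := by
    intro q
    cases q with
    | zero => exact hzX
    | succ q => exact (hnX q).2 (h4 q)
  choose Yk hY using rows_exist hF hG h1 h4X
  choose Yk' hY' using rows_exist hF hG h1Y h4
  refine ⟨_, _, rp_all hF hG pF pG hp h1 h4X hY, rp_all hF hG pF pG hp h1Y h4 hY', Or.inr ?_⟩
  funext m
  unfold nx
  simp only [Nat.unpair_pair]
  have h5 := row_next hXY hYX (p := Denumerable.ofNat ℤ m.unpair.1) (Z1 := Yk' m.unpair.1)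
    (by rw [Denumerable.encode_ofNat]; exact hY' _) (hY _)
  rw [← h5]

end

/-- The theorem for functionals on finite strings. -/
theorem main_str {F G : List Bool → List Bool} (hF : Mon F) (hG : Mon G) (pF : Primrec F)
    (pG : Primrec G) : ∃ e : ℕ,
    (∀ X : ℕ → Bool, TLe X (chr (WE X e)) ∧ ¬ TLe (chr (WE X e)) X ∧
      TLe (chr (WE X e)) (jump X) ∧ ¬ TLe (jump X) (chr (WE X e)) ∧
      TLe (jump (chr (WE X e))) (jump X)) ∧
    ∀ X Y : ℕ → Bool, Lim F X Y → Lim G Y X →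
      TLe (chr (WE X e)) (chr (WE Y e)) ∧ TLe (chr (WE Y e)) (chr (WE X e)) := by
  obtain ⟨e, h1, h2⟩ := exists_shift
  have hp : ∀ Z : ℕ → Bool, TLe Z (chr (WE Z e)) := fun Z => (h1 Z).1
  obtain ⟨e', he'⟩ := exists_index pF pG e
  refine ⟨e', fun X => ?_, fun X Y hXY hYX => ?_⟩
  · rw [he' X, chr_WP]
    obtain ⟨Z, hZ⟩ := exists_rp hF hG pF pG hp X
    obtain ⟨a, b, c, d, f⟩ := h1 Z
    refine ⟨le_WP X, fun h => b ?_, ?_, fun h => d ?_, ?_⟩
    · exact TuringReducible.trans hZ.ge (TuringReducible.trans h hZ.xz)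
    · exact TuringReducible.trans hZ.le (TuringReducible.trans c hZ.zx.jump)
    · exact TuringReducible.trans hZ.zx.jump (TuringReducible.trans h hZ.le)
    · exact TuringReducible.trans hZ.le.jump (TuringReducible.trans f hZ.zx.jump)
  · rw [he' X, he' Y, chr_WP, chr_WP]
    obtain ⟨Z, Z', r, r', h3⟩ := next_rp hF hG pF pG hp hXY hYX
    have h4 : TLe (chr (WE Z e)) (chr (WE Z' e)) ∧ TLe (chr (WE Z' e)) (chr (WE Z e)) := by
      rcases h3 with h3 | h3
      · rw [h3]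
        exact ⟨TuringReducible.refl _, TuringReducible.refl _⟩
      · rw [h3]
        exact h2 Z
    exact ⟨TuringReducible.trans r.le (TuringReducible.trans h4.1 r'.ge),
      TuringReducible.trans r'.le (TuringReducible.trans h4.2 r.ge)⟩

end Pool.Agent.TH769.TP
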