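import Pool.Agent.TH769.ZA.Inv

set_option autoImplicit false

/-!
Simulation of an operator at an oracle which is given by a guess: the elements are frozen whenever
the next guess looks better.
-/

namespace Pool.Agent.TH769.TP

open Encodable Pool.Agent.Helper227 Pool.Agent.H548R2.Post
open Nat.Partrec (Code)
open Pool.Agent.TH769.ZA (si_gen pf_sub)
open Pool.Agent.TH769.CD (bdd_lt pf_add pf_mul pf_div pf_mod pf_pow pf_getD pf_take
  pf_append pf_cons pf_length pf_range pf_natPair pf_unpair pf_encode pf_testBit pf_xorb pf_andb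
  pf_hlt pf_xor pp_exlt pp_alllt pp_imp pp_eq pp_le pp_lt pp_mem pf_decide pf_pre pp_En pf_ext
  ext_pre_eq)

attribute [local fun_prop] Primrec
attribute [local fun_prop] Primrec.id Primrec.const Primrec.comp Primrec.pair Primrec.fst Primrec.snd
attribute [local fun_prop] pf_add pf_mul pf_div pf_mod pf_pow pf_getD pf_take pf_append pf_cons
  pf_length pf_range pf_natPair pf_unpair pf_encode pf_testBit pf_xorb pf_andb pf_hlt pf_xor
  pf_sub

/-- the string function `H` maps the initial segments of `X` to those of `Z` -/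
structure Lim (H : List Bool → List Bool) (X Z : ℕ → Bool) : Prop where
  ok : ∀ s, ∃ n, H (pre X s) = pre Z n
  long : ∀ N, ∃ M, ∀ s ≥ M, N ≤ (H (pre X s)).length

theorem Lim.id (X : ℕ → Bool) : Lim (fun σ => σ) X X :=
  ⟨fun s => ⟨s, rfl⟩, fun N => ⟨N, fun s hs => by rw [length_pre]; exact hs⟩⟩

theorem Lim.comp {H H' : List Bool → List Bool} {X Y Z : ℕ → Bool} (h : Lim H X Y)
    (h' : Lim H' Y Z) : Lim (fun σ => H' (H σ)) X Z := by
  refine ⟨fun s => ?_, fun N => ?_⟩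
  · obtain ⟨n, h1⟩ := h.ok s
    obtain ⟨n', h2⟩ := h'.ok n
    exact ⟨n', by rw [h1, h2]⟩
  · obtain ⟨M', hM'⟩ := h'.long N
    obtain ⟨M, hM⟩ := h.long M'
    refine ⟨M, fun s hs => ?_⟩
    obtain ⟨n, h1⟩ := h.ok s
    have h2 := hM s hs
    rw [h1, length_pre] at h2
    show N ≤ (H' (H (pre X s))).length
    rw [h1]
    exact hM' n h2

theorem Lim.unique {H : List Bool → List Bool} {X Y Z : ℕ → Bool} (h : Lim H X Y)
    (h' : Lim H X Z) : Y = Z := by
  funext i
  obtain ⟨M, hM⟩ := h.long (i + 1)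
  obtain ⟨n, h1⟩ := h.ok M
  obtain ⟨n', h2⟩ := h'.ok M
  have h3 := hM M le_rfl
  have h4 : n = n' := by
    have := congrArg List.length (h1.symm.trans h2)
    rwa [length_pre, length_pre] at this
  subst h4
  rw [h1, length_pre] at h3
  have h5 : (pre Y n)[i]? = (pre Z n)[i]? := by rw [← h1, h2]
  rw [pre_getElem? _ _ _ (by omega), pre_getElem? _ _ _ (by omega)] at h5
  simpa using h5

theorem Lim.le {H : List Bool → List Bool} {X Z : ℕ → Bool} (h : Lim H X Z) (cH : Primrec H) :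
    TLe Z X := by
  have hP : S1 fun y : (ℕ × Bool) × List Bool => (H y.2)[y.1.1]? = some y.1.2 :=
    S1.of_prim (pp_eq (Primrec.list_getElem?.comp (cH.comp Primrec.snd) (by fun_prop))
      (Primrec.option_some.comp (by fun_prop)))
  rw [tLe_iff_SI]
  have h2 : SI X fun x : ℕ × Bool => ∃ L, (H (pre X L))[x.1]? = some x.2 :=
    SI.ex (p := fun (x : ℕ × Bool) (L : ℕ) => (H (pre X L))[x.1]? = some x.2) (si_gen hP)
  refine h2.of_eq fun x => ?_
  constructor
  · rintro ⟨L, h3⟩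
    obtain ⟨L', h4⟩ := h.ok L
    rw [h4] at h3
    by_cases h : x.1 < L'
    · rw [pre_getElem? _ _ _ h] at h3
      simpa using h3
    · rw [pre_getElem?_none _ _ _ (by omega)] at h3
      cases h3
  · intro h3
    obtain ⟨M, hM⟩ := h.long (x.1 + 1)
    obtain ⟨L', h4⟩ := h.ok M
    have h5 := hM M le_rfl
    rw [h4, length_pre] at h5
    exact ⟨M, by rw [h4, pre_getElem? _ _ _ (by omega), h3]⟩

/-- The condition under which the number `m` (in the column `m.unpair.1`) is enumerated. -/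
def Mx (e : ℕ) (H : ℕ → List Bool → List Bool) (R : ℕ → List Bool → ℕ → Prop) (σ : List Bool)
    (m : ℕ) : Prop :=
  R m.unpair.1 σ (m.unpair.1 + m.unpair.2 + 1) ∧
  (∃ k < (H m.unpair.1 σ).length + 1,
    hlt σ.length e m.unpair.2 ((H m.unpair.1 σ).take k) = true) ∧
  ¬ R (m.unpair.1 + 1) σ (m.unpair.2 + 1)

/-- the simulation -/
def UU (e : ℕ) (H : ℕ → List Bool → List Bool) (R : ℕ → List Bool → ℕ → Prop) (X : ℕ → Bool)
    (m : ℕ) : Prop := ∃ s, Mx e H R (pre X s) m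

/-- the number `m` is frozen -/
def FZ (e : ℕ) (H : ℕ → List Bool → List Bool) (R : ℕ → List Bool → ℕ → Prop) (X : ℕ → Bool)
    (m : ℕ) : Prop := ∃ s0, R (m.unpair.1 + 1) (pre X s0) (m.unpair.2 + 1) ∧
      ∀ s < s0, ¬ Mx e H R (pre X s) m

/-- `R n σ k` says that the `n`-th counter is at least `k` -/
structure Cnt (R : ℕ → List Bool → ℕ → Prop) : Prop where
  mono : ∀ n σ τ k, σ <+: τ → R n σ k → R n τ k
  anti : ∀ n σ k, R (n + 1) σ k → R n σ k
  down : ∀ n σ k k', k' ≤ k → R n σ k → R n σ k'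

/-- the counter is unbounded -/
def Unb (R : List Bool → ℕ → Prop) (X : ℕ → Bool) : Prop := ∀ k, ∃ s, R (pre X s) k

section

variable {e : ℕ} {H : ℕ → List Bool → List Bool} {R : ℕ → List Bool → ℕ → Prop} {X : ℕ → Bool}

theorem pp_R {β : Type} [Primcodable β] (hR : PrimrecPred fun x : ℕ × List Bool × ℕ =>
      R x.1 x.2.1 x.2.2) {n k : β → ℕ} {σ : β → List Bool} (hn : Primrec n) (hσ : Primrec σ)
    (hk : Primrec k) : PrimrecPred fun b => R (n b) (σ b) (k b) :=
  hR.comp (p := fun x : ℕ × List Bool × ℕ => R x.1 x.2.1 x.2.2)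
    (f := fun b => (n b, σ b, k b)) (by fun_prop)

theorem pp_Mx (e : ℕ) (hH : Primrec fun x : ℕ × List Bool => H x.1 x.2)
    (hR : PrimrecPred fun x : ℕ × List Bool × ℕ => R x.1 x.2.1 x.2.2) {β : Type} [Primcodable β]
    {σ : β → List Bool} {m : β → ℕ} (hσ : Primrec σ) (hm : Primrec m) :
    PrimrecPred fun b => Mx e H R (σ b) (m b) := by
  have hH' : Primrec fun b => H (m b).unpair.1 (σ b) :=
    hH.comp (f := fun x : ℕ × List Bool => H x.1 x.2) (g := fun b => ((m b).unpair.1, σ b))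
      (by fun_prop)
  refine PrimrecPred.and (pp_R hR (by fun_prop) hσ (by fun_prop)) (PrimrecPred.and ?_
    (PrimrecPred.not (pp_R hR (by fun_prop) hσ (by fun_prop))))
  have h2 : Primrec fun x : β × ℕ => H (m x.1).unpair.1 (σ x.1) := hH'.comp Primrec.fst
  refine pp_exlt (pf_add (pf_length hH') (by fun_prop)) (pp_eq (pf_hlt (by fun_prop)
    (by fun_prop) (by fun_prop) (pf_take (by fun_prop) h2)) (by fun_prop))

theorem si_U (hH : Primrec fun x : ℕ × List Bool => H x.1 x.2)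
    (hR : PrimrecPred fun x : ℕ × List Bool × ℕ => R x.1 x.2.1 x.2.2) (X : ℕ → Bool) :
    SI X (UU e H R X) :=
  SI.ex (p := fun (m s : ℕ) => Mx e H R (pre X s) m)
    (si_gen (P := fun y : ℕ × List Bool => Mx e H R y.2 y.1)
      (S1.of_prim (pp_Mx e hH hR (by fun_prop) (by fun_prop))))

theorem si_FZ (hH : Primrec fun x : ℕ × List Bool => H x.1 x.2)
    (hR : PrimrecPred fun x : ℕ × List Bool × ℕ => R x.1 x.2.1 x.2.2) (X : ℕ → Bool) :
    SI X (FZ e H R X) := by
  refine SI.ex (p := fun (m s0 : ℕ) => R (m.unpair.1 + 1) (pre X s0) (m.unpair.2 + 1) ∧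
      ∀ s < s0, ¬ Mx e H R (pre X s) m) (SI.and ?_ ?_)
  · exact si_gen (P := fun y : ℕ × List Bool => R (y.1.unpair.1 + 1) y.2 (y.1.unpair.2 + 1))
      (S1.of_prim (pp_R hR (by fun_prop) (by fun_prop) (by fun_prop)))
  · refine SI.all_lt (α := ℕ × ℕ) (p := fun x s => ¬ Mx e H R (pre X s) x.1)
      (f := fun x => x.2) ?_ Primrec.snd
    exact si_gen (α := ℕ × ℕ) (P := fun y : (ℕ × ℕ) × List Bool => ¬ Mx e H R y.2 y.1.1)
      (S1.of_prim (PrimrecPred.not (pp_Mx e hH hR (by fun_prop) (by fun_prop))))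

theorem not_U_of_FZ (hC : Cnt R) {m : ℕ} (h : FZ e H R X m) : ¬ UU e H R X m := by
  rintro ⟨s, hs⟩
  obtain ⟨s0, h1, h2⟩ := h
  by_cases hlt : s < s0
  · exact h2 s hlt hs
  · exact hs.2.2 (hC.mono _ _ _ _ (pre_prefix X (by omega)) h1)

theorem FZ_of_unb {m : ℕ} (h : Unb (R (m.unpair.1 + 1)) X) (hn : ¬ UU e H R X m) :
    FZ e H R X m := by
  obtain ⟨s0, h1⟩ := h (m.unpair.2 + 1)
  exact ⟨s0, h1, fun s _ h2 => hn ⟨s, h2⟩⟩

theorem code_bd (N : ℕ) : ∃ B, ∀ m : ℕ, m.unpair.1 + m.unpair.2 < N → m < B := by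
  refine ⟨(N + 1) ^ 2, fun m hm => ?_⟩
  have h1 := Nat.pair_lt_max_add_one_sq m.unpair.1 m.unpair.2
  rw [Nat.pair_unpair] at h1
  refine h1.trans_le (Nat.pow_le_pow_left ?_ 2)
  omega

theorem anti_le (hC : Cnt R) {n n' : ℕ} (h : n ≤ n') {σ : List Bool} {k : ℕ} (h1 : R n' σ k) :
    R n σ k := by
  induction n', h using Nat.le_induction with
  | base => exact h1
  | succ n' _ ih => exact ih (hC.anti _ _ _ h1)

/-- all counters are unbounded -/
theorem case_unb (hH : Primrec fun x : ℕ × List Bool => H x.1 x.2)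
    (hR : PrimrecPred fun x : ℕ × List Bool × ℕ => R x.1 x.2.1 x.2.2) (hC : Cnt R)
    (h : ∀ n, Unb (R n) X) : SI X fun m => ¬ UU e H R X m :=
  (si_FZ hH hR X).of_eq fun _ => ⟨not_U_of_FZ hC, FZ_of_unb (h _)⟩

/-- the first counter is bounded -/
theorem case_bdd (hC : Cnt R) (h : ¬ Unb (R 0) X) : SI X fun m => ¬ UU e H R X m := by
  classical
  unfold Unb at h
  push Not at h
  obtain ⟨N, hN⟩ := h
  obtain ⟨B, hB⟩ := code_bd N
  have h1 : SI X fun m : ℕ => (N ≤ m.unpair.1 + m.unpair.2) ∨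
      m ∈ (List.range B).filter (fun m => decide (¬ UU e H R X m)) :=
    SI.of_prim (PrimrecPred.or (pp_le (by fun_prop) (by fun_prop))
      (pp_mem (by fun_prop) (by fun_prop)))
  refine h1.of_eq fun m => ?_
  constructor
  · rintro (h2 | h2)
    · rintro ⟨s, hs⟩
      exact hN s (hC.down _ _ _ _ (by omega) (anti_le hC (Nat.zero_le _) hs.1))
    · simpa using (List.mem_filter.1 h2).2
  · intro h2
    by_cases h3 : N ≤ m.unpair.1 + m.unpair.2
    · exact Or.inl h3
    · exact Or.inr (List.mem_filter.2 ⟨List.mem_range.2 (hB m (by omega)), by simpa using h2⟩)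

/-- In the right column the simulation is right. -/
theorem col_iff (hC : Cnt R) {a N : ℕ} {Z : ℕ → Bool} (h1 : Unb (R a) X)
    (h2 : ∀ s, ¬ R (a + 1) (pre X s) N) (hZ : Lim (H a) X Z) {z : ℕ} (hz : N ≤ z) :
    UU e H R X (Nat.pair a z) ↔ z ∈ WE Z e := by
  unfold UU Mx
  simp only [Nat.unpair_pair]
  constructor
  · rintro ⟨s, -, ⟨k, hk, h3⟩, -⟩
    obtain ⟨n, hn⟩ := hZ.ok s
    rw [hn, length_pre] at hk
    rw [hn, take_pre _ _ _ (by omega)] at h3
    exact ⟨k, (exists_hlt_iff e z _).1 ⟨_, h3⟩⟩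
  · rintro ⟨k, hk⟩
    obtain ⟨s1, hs1⟩ := (exists_hlt_iff e z _).2 hk
    obtain ⟨s2, hs2⟩ := h1 (a + z + 1)
    obtain ⟨s3, hs3⟩ := hZ.long k
    refine ⟨max s1 (max s2 s3), hC.mono _ _ _ _ (pre_prefix X (by omega)) hs2, ⟨k, ?_, ?_⟩,
      fun h3 => h2 _ (hC.down _ _ _ _ (by omega) h3)⟩
    · have := hs3 (max s1 (max s2 s3)) (by omega)
      omega
    · obtain ⟨n, hn⟩ := hZ.ok (max s1 (max s2 s3))
      have h4 := hs3 (max s1 (max s2 s3)) (by omega)
      rw [hn, length_pre] at h4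
      rw [hn, take_pre _ _ _ h4, length_pre]
      exact hlt_mono (by omega) hs1

/-- the guess `a` is the right one -/
theorem case_eq (hH : Primrec fun x : ℕ × List Bool => H x.1 x.2)
    (hR : PrimrecPred fun x : ℕ × List Bool × ℕ => R x.1 x.2.1 x.2.2) (hC : Cnt R) {a : ℕ}
    {Z W : ℕ → Bool} (h1 : Unb (R a) X) (h2 : ¬ Unb (R (a + 1)) X) (hZ : Lim (H a) X Z)
    (hX : TLe X W) (hW : SI W fun z => z ∉ WE Z e) : SI W fun m => ¬ UU e H R X m := by
  classical
  unfold Unb at h2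
  push Not at h2
  obtain ⟨N, hN⟩ := h2
  obtain ⟨B, hB⟩ := code_bd (N + a)
  have g1 : SI W (FZ e H R X) := (si_FZ hH hR X).trans hX
  have g2 : SI W fun m : ℕ => (m.unpair.1 = a ∧ N ≤ m.unpair.2) ∧ m.unpair.2 ∉ WE Z e :=
    SI.and (SI.of_prim (PrimrecPred.and (pp_eq (by fun_prop) (by fun_prop))
      (pp_le (by fun_prop) (by fun_prop)))) (hW.comp (f := fun m : ℕ => m.unpair.2) (by fun_prop))
  have g3 : SI W fun m : ℕ => (a < m.unpair.1 ∧ N ≤ m.unpair.1 + m.unpair.2) ∨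
      m ∈ (List.range B).filter (fun m => decide (¬ UU e H R X m)) :=
    SI.of_prim (PrimrecPred.or (PrimrecPred.and (pp_lt (by fun_prop) (by fun_prop))
      (pp_le (by fun_prop) (by fun_prop))) (pp_mem (by fun_prop) (by fun_prop)))
  refine (SI.or g1 (SI.or g2 g3)).of_eq fun m => ?_
  have hm : m = Nat.pair m.unpair.1 m.unpair.2 := (Nat.pair_unpair m).symm
  constructor
  · rintro (h3 | ⟨⟨h3, h4⟩, h5⟩ | ⟨h3, h4⟩ | h3)
    · exact not_U_of_FZ hC h3
    · rw [hm, h3, col_iff hC h1 hN hZ h4]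
      exact h5
    · rintro ⟨s, hs⟩
      exact hN s (hC.down _ _ _ _ (by omega) (anti_le hC (by omega) hs.1))
    · simpa using (List.mem_filter.1 h3).2
  · intro h3
    rcases lt_trichotomy m.unpair.1 a with h4 | h4 | h4
    · left
      refine FZ_of_unb (fun k => ?_) h3
      obtain ⟨s, hs⟩ := h1 k
      exact ⟨s, anti_le hC (by omega) hs⟩
    · right
      by_cases h5 : N ≤ m.unpair.2
      · left
        refine ⟨⟨h4, h5⟩, ?_⟩
        rw [← col_iff (e := e) hC h1 hN hZ h5, ← h4, ← hm]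
        exact h3
      · right; right
        exact List.mem_filter.2 ⟨List.mem_range.2 (hB m (by omega)), by simpa using h3⟩
    · right; right
      by_cases h5 : N ≤ m.unpair.1 + m.unpair.2
      · exact Or.inl ⟨h4, h5⟩
      · exact Or.inr (List.mem_filter.2 ⟨List.mem_range.2 (hB m (by omega)), by simpa using h3⟩)

/-- the target can be computed from the simulation -/
theorem case_back (hC : Cnt R) {a : ℕ} {Z V : ℕ → Bool} (h1 : Unb (R a) X)
    (h2 : ¬ Unb (R (a + 1)) X) (hZ : Lim (H a) X Z) (hV : SI V fun m => ¬ UU e H R X m) :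
    SI V fun z => z ∉ WE Z e := by
  classical
  unfold Unb at h2
  push Not at h2
  obtain ⟨N, hN⟩ := h2
  have g1 : SI V fun z : ℕ => N ≤ z ∧ ¬ UU e H R X (Nat.pair a z) :=
    SI.and (SI.of_prim (pp_le (by fun_prop) (by fun_prop)))
      (hV.comp (f := fun z : ℕ => Nat.pair a z) (by fun_prop))
  have g2 : SI V fun z : ℕ => z ∈ (List.range N).filter (fun z => decide (z ∉ WE Z e)) :=
    SI.of_prim (pp_mem (by fun_prop) (by fun_prop))
  refine (SI.or g1 g2).of_eq fun z => ?_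
  constructor
  · rintro (⟨h3, h4⟩ | h3)
    · rwa [col_iff hC h1 hN hZ h3] at h4
    · simpa using (List.mem_filter.1 h3).2
  · intro h3
    by_cases h4 : N ≤ z
    · left
      refine ⟨h4, ?_⟩
      rwa [col_iff hC h1 hN hZ h4]
    · exact Or.inr (List.mem_filter.2 ⟨List.mem_range.2 (by omega), by simpa using h3⟩)

end

end Pool.Agent.TH769.TP
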