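import Pool.Agent.TH769.TP.Frz

set_option autoImplicit false

/-!
The counters for the links of the chain given by two functionals on finite strings.
-/

namespace Pool.Agent.TH769.TP

open Encodable Pool.Agent.Helper227 Pool.Agent.H548R2.Post
open Nat.Partrec (Code)
open Pool.Agent.TH769.ZA (si_gen pf_sub rowG)
open Pool.Agent.TH769.CD (bdd_lt pf_add pf_mul pf_div pf_mod pf_pow pf_getD pf_take
  pf_append pf_cons pf_length pf_range pf_natPair pf_unpair pf_encode pf_testBit pf_xorb pf_andb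
  pf_hlt pf_xor pp_exlt pp_alllt pp_imp pp_eq pp_le pp_lt pp_mem pf_decide pf_pre pp_En pf_ext
  ext_pre_eq)

attribute [local fun_prop] Primrec
attribute [local fun_prop] Primrec.id Primrec.const Primrec.comp Primrec.pair Primrec.fst Primrec.snd
attribute [local fun_prop] pf_add pf_mul pf_div pf_mod pf_pow pf_getD pf_take pf_append pf_cons
  pf_length pf_range pf_natPair pf_unpair pf_encode pf_testBit pf_xorb pf_andb pf_hlt pf_xor
  pf_sub

/-- functionals on finite strings -/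
structure Mon (F : List Bool → List Bool) : Prop where
  mono : ∀ σ τ, σ <+: τ → F σ <+: F τ
  short : ∀ σ, (F σ).length ≤ σ.length

/-- The link between the positions `q` and `q + 1` in the direction of `G` looks right up to
`k`. -/
def AG (F G : List Bool → List Bool) (q : ℕ) (σ : List Bool) (k : ℕ) : Prop :=
  k ≤ (G^[q] σ).length ∧ k ≤ (F (G^[q + 1] σ)).length ∧
    (G^[q] σ).take k = (F (G^[q + 1] σ)).take k

/-- the first `n` links in the direction of `G` -/
def LL (F G : List Bool → List Bool) (n : ℕ) (σ : List Bool) (k : ℕ) : Prop :=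
  k ≤ σ.length ∧ ∀ q < n, AG F G q σ k

/-- all links in the direction of `G` -/
def DG (F G : List Bool → List Bool) (σ : List Bool) (k : ℕ) : Prop := LL F G k σ k

/-- all links in the direction of `G`, and the first `n` links in the direction of `F` -/
def RR (F G : List Bool → List Bool) (n : ℕ) (σ : List Bool) (k : ℕ) : Prop :=
  DG F G σ k ∧ LL G F n σ k

/-- all links -/
def II (F G : List Bool → List Bool) (n : ℕ) (σ : List Bool) (k : ℕ) : Prop :=
  n = 0 ∧ DG F G σ k ∧ DG G F σ k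

section

variable {F G : List Bool → List Bool} {X Y : ℕ → Bool}

theorem Mon.iter (h : Mon F) (n : ℕ) : Mon (F^[n]) := by
  induction n with
  | zero => exact ⟨fun _ _ h => h, fun _ => le_rfl⟩
  | succ n ih =>
    refine ⟨fun σ τ hs => ?_, fun σ => ?_⟩
    · rw [Function.iterate_succ_apply', Function.iterate_succ_apply']
      exact h.mono _ _ (ih.mono _ _ hs)
    · rw [Function.iterate_succ_apply']
      exact (h.short _).trans (ih.short σ)

theorem take_of_prefix {σ τ : List Bool} (h : σ <+: τ) {k : ℕ} (hk : k ≤ σ.length) :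
    τ.take k = σ.take k := by
  obtain ⟨ρ, rfl⟩ := h
  exact List.take_append_of_le_length hk

theorem ag_mono (hF : Mon F) (hG : Mon G) {q : ℕ} {σ τ : List Bool} {k : ℕ} (hs : σ <+: τ)
    (h : AG F G q σ k) : AG F G q τ k := by
  obtain ⟨h1, h2, h3⟩ := h
  have e1 := (hG.iter q).mono _ _ hs
  have e2 := hF.mono _ _ ((hG.iter (q + 1)).mono _ _ hs)
  refine ⟨h1.trans e1.length_le, h2.trans e2.length_le, ?_⟩
  rw [take_of_prefix e1 h1, take_of_prefix e2 h2, h3]

theorem ag_down {q : ℕ} {σ : List Bool} {k k' : ℕ} (hk : k' ≤ k) (h : AG F G q σ k) :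
    AG F G q σ k' := by
  obtain ⟨h1, h2, h3⟩ := h
  refine ⟨by omega, by omega, ?_⟩
  have h4 := congrArg (List.take k') h3
  rwa [List.take_take, List.take_take, min_eq_left hk] at h4

theorem ll_mono (hF : Mon F) (hG : Mon G) {n : ℕ} {σ τ : List Bool} {k : ℕ} (hs : σ <+: τ)
    (h : LL F G n σ k) : LL F G n τ k :=
  ⟨h.1.trans hs.length_le, fun q hq => ag_mono hF hG hs (h.2 q hq)⟩

theorem ll_down {n n' : ℕ} {σ : List Bool} {k k' : ℕ} (hn : n' ≤ n) (hk : k' ≤ k)
    (h : LL F G n σ k) : LL F G n' σ k' :=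
  ⟨hk.trans h.1, fun q hq => ag_down hk (h.2 q (by omega))⟩

theorem cnt_LL (hF : Mon F) (hG : Mon G) : Cnt (LL F G) :=
  ⟨fun _ _ _ _ hs h => ll_mono hF hG hs h, fun _ _ _ h => ll_down (Nat.le_succ _) le_rfl h,
    fun _ _ _ _ hk h => ll_down le_rfl hk h⟩

theorem cnt_RR (hF : Mon F) (hG : Mon G) : Cnt (RR F G) :=
  ⟨fun _ _ _ _ hs h => ⟨ll_mono hF hG hs h.1, ll_mono hG hF hs h.2⟩,
    fun _ _ _ h => ⟨h.1, ll_down (Nat.le_succ _) le_rfl h.2⟩,
    fun _ _ _ _ hk h => ⟨ll_down hk hk h.1, ll_down le_rfl hk h.2⟩⟩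

theorem cnt_II (hF : Mon F) (hG : Mon G) : Cnt (II F G) :=
  ⟨fun _ _ _ _ hs h => ⟨h.1, ll_mono hF hG hs h.2.1, ll_mono hG hF hs h.2.2⟩,
    fun _ _ _ h => absurd h.1 (Nat.succ_ne_zero _),
    fun _ _ _ _ hk h => ⟨h.1, ll_down hk hk h.2.1, ll_down hk hk h.2.2⟩⟩

theorem unb_LL (hF : Mon F) (hG : Mon G) {n : ℕ} :
    Unb (LL F G n) X ↔ ∀ q < n, Unb (AG F G q) X := by
  constructor
  · intro h q hq k
    obtain ⟨s, hs⟩ := h k
    exact ⟨s, hs.2 q hq⟩
  · intro h k
    obtain ⟨a, ha⟩ := bdd_lt n (fun q s => AG F G q (pre X s) k) (fun q hq => by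
      obtain ⟨s, hs⟩ := h q hq k
      exact ⟨s, fun t ht => ag_mono hF hG (pre_prefix X ht) hs⟩)
    refine ⟨max a k, ?_, fun q hq => ha q hq _ (le_max_left _ _)⟩
    rw [length_pre]
    exact le_max_right _ _

theorem unb_DG (hF : Mon F) (hG : Mon G) :
    Unb (DG F G) X ↔ ∀ q, Unb (AG F G q) X := by
  constructor
  · intro h q k
    obtain ⟨s, hs⟩ := h (max k (q + 1))
    exact ⟨s, ag_down (le_max_left _ _) (hs.2 q (by omega))⟩
  · intro h k
    exact (unb_LL hF hG (n := k)).2 (fun q _ => h q) k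

theorem unb_and {P Q : List Bool → ℕ → Prop} (hP : ∀ σ τ k, σ <+: τ → P σ k → P τ k)
    (hQ : ∀ σ τ k, σ <+: τ → Q σ k → Q τ k) :
    Unb (fun σ k => P σ k ∧ Q σ k) X ↔ Unb P X ∧ Unb Q X := by
  constructor
  · intro h
    constructor
    · intro k
      obtain ⟨s, hs⟩ := h k
      exact ⟨s, hs.1⟩
    · intro k
      obtain ⟨s, hs⟩ := h k
      exact ⟨s, hs.2⟩
  · rintro ⟨h1, h2⟩ k
    obtain ⟨s, hs⟩ := h1 k
    obtain ⟨t, ht⟩ := h2 k
    exact ⟨max s t, hP _ _ _ (pre_prefix X (le_max_left _ _)) hs,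
      hQ _ _ _ (pre_prefix X (le_max_right _ _)) ht⟩

theorem unb_RR (hF : Mon F) (hG : Mon G) {n : ℕ} :
    Unb (RR F G n) X ↔ (∀ q, Unb (AG F G q) X) ∧ ∀ q < n, Unb (AG G F q) X := by
  rw [← unb_DG hF hG, ← unb_LL hG hF]
  exact unb_and (fun _ _ _ hs h => ll_mono hF hG hs h) (fun _ _ _ hs h => ll_mono hG hF hs h)

theorem unb_II (hF : Mon F) (hG : Mon G) :
    Unb (II F G 0) X ↔ (∀ q, Unb (AG F G q) X) ∧ ∀ q, Unb (AG G F q) X := by
  have h := unb_and (X := X) (P := DG F G) (Q := DG G F) (fun _ _ _ hs h =>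
    ll_down (by exact le_rfl) le_rfl (ll_mono hF hG hs h))
    (fun _ _ _ hs h => ll_mono hG hF hs h)
  rw [← unb_DG hF hG, ← unb_DG hG hF, ← h]
  unfold Unb II
  simp

theorem not_unb_II {n : ℕ} : ¬ Unb (II F G (n + 1)) X := by
  intro h
  obtain ⟨s, hs⟩ := h 0
  exact absurd hs.1 (Nat.succ_ne_zero _)

theorem prefix_pre {σ : List Bool} {Z : ℕ → Bool} {n : ℕ} (h : σ <+: pre Z n) :
    σ = pre Z σ.length := by
  have h1 := List.prefix_iff_eq_take.1 h
  have h2 := h.length_le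
  rw [length_pre] at h2
  rw [take_pre _ _ _ h2] at h1
  exact h1

theorem lim_exists {H : List Bool → List Bool} (hm : ∀ σ τ, σ <+: τ → H σ <+: H τ)
    (hu : ∀ N, ∃ s, N ≤ (H (pre X s)).length) : ∃ Z, Lim H X Z := by
  choose f hf using fun n => hu (n + 1)
  refine ⟨fun n => (H (pre X (f n))).getD n false, fun s => ⟨(H (pre X s)).length, ?_⟩,
    fun N => ?_⟩
  · refine List.ext_getElem (by rw [length_pre]) fun i h1 h2 => ?_
    rw [getElem_pre]
    have h3 := hf i
    have key : ∀ s t : ℕ, s ≤ t → ∀ (g1 : i < (H (pre X s)).length)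
        (g2 : i < (H (pre X t)).length), (H (pre X s))[i] = (H (pre X t))[i] := by
      intro s t hst g1 g2
      obtain ⟨ρ, hρ⟩ := hm _ _ (pre_prefix X hst)
      have : (H (pre X s))[i]? = (H (pre X t))[i]? := by
        rw [← hρ, List.getElem?_append_left g1]
      rw [List.getElem?_eq_getElem g1, List.getElem?_eq_getElem g2] at this
      exact Option.some.inj this
    have h4 : i < (H (pre X (f i))).length := by omega
    rw [List.getD_eq_getElem _ _ h4]
    rcases le_total s (f i) with h5 | h5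
    · exact key _ _ h5 h1 h4
    · exact (key _ _ h5 h4 h1).symm
  · obtain ⟨M, hM⟩ := hu N
    exact ⟨M, fun s hs => hM.trans (hm _ _ (pre_prefix X hs)).length_le⟩

/-- a right link is a reduction -/
theorem link_lim (hF : Mon F) {q : ℕ} {Y0 Y1 : ℕ → Bool} (h : Unb (AG F G q) X)
    (h0 : Lim (G^[q]) X Y0) (h1 : Lim (G^[q + 1]) X Y1) : Lim F Y1 Y0 := by
  have key : ∀ k, ∃ s n1, G^[q + 1] (pre X s) = pre Y1 n1 ∧ k ≤ (F (pre Y1 n1)).length ∧
      (F (pre Y1 n1)).take k = pre Y0 k := by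
    intro k
    obtain ⟨s, g1, g2, g3⟩ := h k
    obtain ⟨n0, e0⟩ := h0.ok s
    obtain ⟨n1, e1⟩ := h1.ok s
    rw [e0, length_pre] at g1
    rw [e1] at g2
    rw [e0, e1, take_pre _ _ _ g1] at g3
    exact ⟨s, n1, e1, g2, g3.symm⟩
  refine ⟨fun s => ?_, fun N => ?_⟩
  · obtain ⟨t, n1, -, g1, g2⟩ := key (F (pre Y1 s)).length
    rcases le_total s n1 with h2 | h2
    · have h3 := hF.mono _ _ (pre_prefix Y1 h2)
      exact ⟨_, (List.prefix_iff_eq_take.1 h3).trans g2⟩
    · have h3 := hF.mono _ _ (pre_prefix Y1 h2)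
      have h4 : F (pre Y1 n1) = F (pre Y1 s) := h3.eq_of_length (le_antisymm h3.length_le g1)
      rw [h4, List.take_length] at g2
      exact ⟨_, g2⟩
  · obtain ⟨t, n1, -, g1, -⟩ := key N
    exact ⟨n1, fun s hs => g1.trans (hF.mono _ _ (pre_prefix Y1 hs)).length_le⟩

theorem unb_len (hF : Mon F) {q : ℕ} (h : Unb (AG F G q) X) (N : ℕ) :
    ∃ s, N ≤ (G^[q + 1] (pre X s)).length := by
  obtain ⟨s, -, g2, -⟩ := h N
  exact ⟨s, g2.trans (hF.short _)⟩

theorem lim_iter (hF : Mon F) (hG : Mon G) {n : ℕ} (h : ∀ q < n, Unb (AG F G q) X) :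
    ∃ Z, Lim (G^[n]) X Z := by
  cases n with
  | zero => exact ⟨X, Lim.id X⟩
  | succ n => exact lim_exists (hG.iter (n + 1)).mono (unb_len hF (h n (Nat.lt_succ_self n)))

theorem back_iter (hF : Mon F) (hG : Mon G) {n : ℕ} (h : ∀ q < n, Unb (AG F G q) X)
    {Z : ℕ → Bool} (hZ : Lim (G^[n]) X Z) : Lim (F^[n]) Z X := by
  induction n generalizing Z with
  | zero =>
    have := (Lim.id X).unique hZ
    subst this
    exact Lim.id X
  | succ n ih =>
    obtain ⟨Y0, h0⟩ := lim_iter hF hG (n := n) fun q hq => h q (by omega)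
    have h1 := link_lim hF (h n (Nat.lt_succ_self n)) h0 hZ
    exact h1.comp (ih (fun q hq => h q (by omega)) h0)

/-! The next member of the chain. -/

theorem unb_zero_next (hXY : Lim F X Y) (hYX : Lim G Y X) : Unb (AG F G 0) Y := by
  intro k
  obtain ⟨M, hM⟩ := (hYX.comp hXY).long k
  obtain ⟨n, hn⟩ := (hYX.comp hXY).ok (max M k)
  have h1 : k ≤ (F (G (pre Y (max M k)))).length := hM (max M k) (le_max_left _ _)
  have hn : F (G (pre Y (max M k))) = pre Y n := hn
  refine ⟨max M k, ?_, h1, ?_⟩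
  · show k ≤ (pre Y (max M k)).length
    rw [length_pre]
    exact le_max_right _ _
  · show (pre Y (max M k)).take k = (F (G (pre Y (max M k)))).take k
    rw [hn, length_pre] at h1
    rw [hn, take_pre _ _ _ h1, take_pre _ _ _ (le_max_right _ _)]

theorem unb_succ_next (hF : Mon F) (hG : Mon G) (hYX : Lim G Y X) {q : ℕ} :
    Unb (AG F G (q + 1)) Y ↔ Unb (AG F G q) X := by
  constructor
  · intro h k
    obtain ⟨s, h1⟩ := h k
    obtain ⟨n, hn⟩ := hYX.ok s
    refine ⟨n, ?_⟩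
    unfold AG at h1 ⊢
    rw [Function.iterate_succ_apply, Function.iterate_succ_apply G (q + 1), hn] at h1
    exact h1
  · intro h k
    obtain ⟨t, ht⟩ := h k
    obtain ⟨M, hM⟩ := hYX.long t
    obtain ⟨n, hn⟩ := hYX.ok M
    have h2 := hM M le_rfl
    rw [hn, length_pre] at h2
    refine ⟨M, ?_⟩
    have h3 := ag_mono hF hG (pre_prefix X h2) ht
    unfold AG at h3 ⊢
    rw [Function.iterate_succ_apply, Function.iterate_succ_apply G (q + 1), hn]
    exact h3

theorem lim_next {n : ℕ} {Z : ℕ → Bool} (hYX : Lim G Y X) (h : Lim (G^[n]) X Z) :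
    Lim (G^[n + 1]) Y Z := hYX.comp h

end

/-! Primitive recursion. -/

section

variable {F G : List Bool → List Bool} {β : Type} [Primcodable β]

theorem pf_iter (pG : Primrec G) {n : β → ℕ} {σ : β → List Bool} (hn : Primrec n)
    (hσ : Primrec σ) : Primrec fun b => G^[n b] (σ b) :=
  Primrec.nat_iterate hn hσ (pG.comp Primrec.snd).to₂

theorem pp_AG (pF : Primrec F) (pG : Primrec G) {q k : β → ℕ} {σ : β → List Bool}
    (hq : Primrec q) (hσ : Primrec σ) (hk : Primrec k) :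
    PrimrecPred fun b => AG F G (q b) (σ b) (k b) := by
  have h1 := pf_iter pG hq hσ
  have h2 := pF.comp (pf_iter pG (n := fun b => q b + 1) (by fun_prop) hσ)
  exact PrimrecPred.and (pp_le hk (pf_length h1)) (PrimrecPred.and (pp_le hk (pf_length h2))
    (pp_eq (pf_take hk h1) (pf_take hk h2)))

theorem pp_LL (pF : Primrec F) (pG : Primrec G) {n k : β → ℕ} {σ : β → List Bool}
    (hn : Primrec n) (hσ : Primrec σ) (hk : Primrec k) :
    PrimrecPred fun b => LL F G (n b) (σ b) (k b) :=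
  PrimrecPred.and (pp_le hk (pf_length hσ)) (pp_alllt hn (pp_AG pF pG (by fun_prop) (by fun_prop)
    (by fun_prop)))

theorem pp_RR (pF : Primrec F) (pG : Primrec G) :
    PrimrecPred fun x : ℕ × List Bool × ℕ => RR F G x.1 x.2.1 x.2.2 :=
  PrimrecPred.and (pp_LL pF pG (by fun_prop) (by fun_prop) (by fun_prop))
    (pp_LL pG pF (by fun_prop) (by fun_prop) (by fun_prop))

theorem pp_II (pF : Primrec F) (pG : Primrec G) :
    PrimrecPred fun x : ℕ × List Bool × ℕ => II F G x.1 x.2.1 x.2.2 :=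
  PrimrecPred.and (pp_eq (by fun_prop) (by fun_prop)) (PrimrecPred.and
    (pp_LL pF pG (by fun_prop) (by fun_prop) (by fun_prop))
    (pp_LL pG pF (by fun_prop) (by fun_prop) (by fun_prop)))

end

end Pool.Agent.TH769.TP
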