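import Pool.Agent.TH769.TP.Lnk

set_option autoImplicit false

/-!
The operator for a pair of functionals on finite strings.
-/

namespace Pool.Agent.TH769.TP

open Encodable Pool.Agent.Helper227 Pool.Agent.H548R2.Post
open Nat.Partrec (Code)
open Pool.Agent.TH769.ZA (si_gen pf_sub rowG pf_zs pf_wd wd TT neg_succ)
open Pool.Agent.TH769.CD (bdd_lt pf_add pf_mul pf_div pf_mod pf_pow pf_getD pf_take
  pf_append pf_cons pf_length pf_range pf_natPair pf_unpair pf_encode pf_testBit pf_xorb pf_andb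
  pf_hlt pf_xor pp_exlt pp_alllt pp_imp pp_eq pp_le pp_lt pp_mem pf_decide pf_pre pp_En pf_ext
  ext_pre_eq)

attribute [local fun_prop] Primrec
attribute [local fun_prop] Primrec.id Primrec.const Primrec.comp Primrec.pair Primrec.fst Primrec.snd
attribute [local fun_prop] pf_add pf_mul pf_div pf_mod pf_pow pf_getD pf_take pf_append pf_cons
  pf_length pf_range pf_natPair pf_unpair pf_encode pf_testBit pf_xorb pf_andb pf_hlt pf_xor
  pf_sub pf_wd

/-- one bit of the sequence of all members of the chain -/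
def bt (F G : List Bool → List Bool) (σ : List Bool) (m : ℕ) : Bool :=
  (rowG F G σ m.unpair.1).getD m.unpair.2 false

open Classical in
/-- the approximation to the sequence of all members of the chain -/
noncomputable def JJ (F G : List Bool → List Bool) (σ : List Bool) : List Bool :=
  (List.range σ.length).filterMap
    (fun m => if II F G 0 σ (m + 1) then some (bt F G σ m) else none)

theorem filt_range {P : ℕ → Prop} [DecidablePred P] (hP : ∀ m m', m' ≤ m → P m → P m')
    (f : ℕ → Bool) (N : ℕ) : ∃ t ≤ N,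
      (List.range N).filterMap (fun m => if P m then some (f m) else none) = (List.range t).map f ∧
      (∀ m < t, P m) ∧ ∀ m < N, P m → m < t := by
  induction N with
  | zero => exact ⟨0, le_rfl, rfl, fun m hm => absurd hm (Nat.not_lt_zero _),
      fun m hm => absurd hm (Nat.not_lt_zero _)⟩
  | succ N ih =>
    obtain ⟨t, h1, h2, h3, h4⟩ := ih
    by_cases hN : P N
    · have ht : t = N := by
        rcases Nat.eq_or_lt_of_le h1 with h | h
        · exact h
        · exact absurd (h4 t h (hP N t h1 hN)) (lt_irrefl _)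
      subst ht
      refine ⟨t + 1, le_rfl, ?_, ?_, fun m hm _ => hm⟩
      · rw [List.range_succ, List.filterMap_append, h2, List.map_append]
        simp [hN]
      · intro m hm
        exact hP t m (by omega) hN
    · refine ⟨t, by omega, ?_, h3, fun m hm hPm => ?_⟩
      · rw [List.range_succ, List.filterMap_append, h2]
        simp [hN]
      · rcases Nat.lt_succ_iff_lt_or_eq.1 hm with h | h
        · exact h4 m h hPm
        · rw [h] at hPm
          exact absurd hPm hN

section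

variable {F G : List Bool → List Bool} {X Y : ℕ → Bool}

theorem row_len {σ : List Bool} {m : ℕ} (h : II F G 0 σ (m + 1)) :
    m + 1 ≤ (rowG F G σ m.unpair.1).length := by
  have h0 := Nat.unpair_left_le m
  unfold rowG
  by_cases hk : m.unpair.1 % 2 = 0
  · rw [decide_eq_true hk, cond_true]
    exact (h.2.2.2 (m.unpair.1 / 2) (by omega)).1
  · rw [decide_eq_false hk, cond_false]
    exact (h.2.1.2 (m.unpair.1 / 2 + 1) (by omega)).1

theorem JJ_lim (hF : Mon F) (hG : Mon G) {Yk : ℕ → ℕ → Bool}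
    (hY : ∀ k, Lim (fun σ => rowG F G σ k) X (Yk k)) (hu : Unb (II F G 0) X) :
    Lim (JJ F G) X (fun m => Yk m.unpair.1 m.unpair.2) := by
  classical
  have hd : ∀ s m m', m' ≤ m → II F G 0 (pre X s) (m + 1) → II F G 0 (pre X s) (m' + 1) :=
    fun s m m' hm h => (cnt_II hF hG).down _ _ _ _ (by omega) h
  refine ⟨fun s => ?_, fun N => ?_⟩
  · obtain ⟨t, h1, h2, h3, -⟩ := filt_range (hd s) (bt F G (pre X s)) (pre X s).length
    refine ⟨t, ?_⟩
    unfold JJ
    rw [h2]
    unfold pre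
    refine List.map_congr_left fun m hm => ?_
    have h4 := h3 m (List.mem_range.1 hm)
    have h5 := row_len h4
    obtain ⟨n, hn⟩ := (hY m.unpair.1).ok s
    have hn : rowG F G (pre X s) m.unpair.1 = pre (Yk m.unpair.1) n := hn
    have h6 := Nat.unpair_right_le m
    show bt F G (pre X s) m = _
    unfold bt
    rw [hn, length_pre] at h5
    rw [hn]
    exact pre_getD _ _ _ _ (by omega)
  · obtain ⟨s0, hs0⟩ := hu N
    refine ⟨s0, fun s hs => ?_⟩
    obtain ⟨t, h1, h2, h3, h4⟩ := filt_range (hd s) (bt F G (pre X s)) (pre X s).length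
    have h5 := (cnt_II hF hG).mono _ _ _ _ (pre_prefix X hs) hs0
    unfold JJ
    rw [h2, List.length_map, List.length_range]
    by_contra hc
    have h6 : t < N := by omega
    have h7 := h5.2.1.1
    exact absurd (h4 t (by omega) ((cnt_II hF hG).down _ _ _ _ (by omega) h5)) (lt_irrefl _)

theorem rows_exist (hF : Mon F) (hG : Mon G) (h1 : ∀ q, Unb (AG F G q) X)
    (h2 : ∀ q, Unb (AG G F q) X) (k : ℕ) : ∃ Z, Lim (fun σ => rowG F G σ k) X Z := by
  unfold rowG
  by_cases hk : k % 2 = 0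
  · rw [decide_eq_true hk]
    exact lim_iter hG hF fun q _ => h2 q
  · rw [decide_eq_false hk]
    exact lim_iter hF hG fun q _ => h1 q

/-- the rows of the next member of the chain -/
theorem row_next (hXY : Lim F X Y) (hYX : Lim G Y X) {p : ℤ} {Z1 Z2 : ℕ → Bool}
    (h1 : Lim (fun σ => rowG F G σ (encode p)) Y Z1)
    (h2 : Lim (fun σ => rowG F G σ (encode (p + 1))) X Z2) : Z1 = Z2 := by
  have eE : ∀ n : ℕ, (fun σ => rowG F G σ (encode (Int.ofNat n))) = F^[n] := by
    intro n
    funext σ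
    have e : encode (Int.ofNat n) = 2 * n := rfl
    rw [e]
    unfold rowG
    rw [decide_eq_true (by omega), cond_true, show 2 * n / 2 = n by omega]
  have eO : ∀ n : ℕ, (fun σ => rowG F G σ (encode (Int.negSucc n))) = G^[n + 1] := by
    intro n
    funext σ
    have e : encode (Int.negSucc n) = 2 * n + 1 := rfl
    rw [e]
    unfold rowG
    rw [decide_eq_false (by omega), cond_false, show (2 * n + 1) / 2 = n by omega]
  cases p with
  | ofNat n =>
    have e2 : Int.ofNat n + 1 = Int.ofNat (n + 1) := rfl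
    rw [e2, eE] at h2
    rw [eE] at h1
    exact Lim.unique (H := F^[n + 1]) (hXY.comp h1) h2
  | negSucc n =>
    rw [eO] at h1
    cases n with
    | zero =>
      have e2 : Int.negSucc 0 + 1 = Int.ofNat 0 := rfl
      rw [e2, eE] at h2
      have h3 := (Lim.id X).unique h2
      subst h3
      exact Lim.unique (H := G) h1 hYX
    | succ k =>
      rw [neg_succ, eO] at h2
      exact Lim.unique (H := G^[k + 1 + 1]) h1 (hYX.comp h2)

theorem pf_rowG {β : Type} [Primcodable β] (pF : Primrec F) (pG : Primrec G) {k : β → ℕ}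
    {σ : β → List Bool} (hk : Primrec k) (hσ : Primrec σ) :
    Primrec fun b => rowG F G (σ b) (k b) := by
  unfold rowG
  refine Primrec.cond (pf_decide (pp_eq (by fun_prop) (by fun_prop)) _) ?_ ?_
  · exact pf_iter pF (by fun_prop) hσ
  · exact pf_iter pG (by fun_prop) hσ

theorem pf_JJ (pF : Primrec F) (pG : Primrec G) : Primrec (JJ F G) := by
  classical
  have h1 : Primrec₂ fun (σ : List Bool) (m : ℕ) =>
      if II F G 0 σ (m + 1) then some (bt F G σ m) else none := by
    have hp : PrimrecPred fun y : List Bool × ℕ => II F G 0 y.1 (y.2 + 1) :=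
      (pp_II pF pG).comp (f := fun y : List Bool × ℕ => ((0, (y.1, y.2 + 1)) : ℕ × List Bool × ℕ))
        (by fun_prop)
    have hb : Primrec fun y : List Bool × ℕ => bt F G y.1 y.2 :=
      pf_getD (pf_rowG pF pG (by fun_prop) (by fun_prop)) (by fun_prop)
    exact Primrec.ite hp (Primrec.option_some.comp hb) (Primrec.const none)
  exact Primrec.listFilterMap (pf_range (pf_length Primrec.id)) h1

/-! The operator. -/

def U1 (e : ℕ) (F G : List Bool → List Bool) : (ℕ → Bool) → ℕ → Prop :=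
  UU e (fun n σ => G^[n] σ) (LL F G)

def U2 (e : ℕ) (F G : List Bool → List Bool) : (ℕ → Bool) → ℕ → Prop :=
  UU e (fun n σ => F^[n] σ) (RR F G)

def U3 (e : ℕ) (F G : List Bool → List Bool) : (ℕ → Bool) → ℕ → Prop :=
  UU e (fun _ σ => JJ F G σ) (II F G)

def UW (e : ℕ) (F G : List Bool → List Bool) (X : ℕ → Bool) (n : ℕ) : Prop :=
  (n % 4 = 0 ∧ X (n / 4) = true) ∨ (n % 4 = 1 ∧ U1 e F G X (n / 4)) ∨
    (n % 4 = 2 ∧ U2 e F G X (n / 4)) ∨ (n % 4 = 3 ∧ U3 e F G X (n / 4))

open Classical in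
noncomputable def WP (e : ℕ) (F G : List Bool → List Bool) (X : ℕ → Bool) : ℕ → Bool :=
  fun n => decide (UW e F G X n)

variable {e : ℕ}

theorem WP_iff (n : ℕ) : WP e F G X n = true ↔ UW e F G X n := by
  unfold WP
  exact @decide_eq_true_iff _ (Classical.propDecidable _)

theorem WP_iff' (n : ℕ) : WP e F G X n = false ↔ ¬ UW e F G X n := by
  rw [← WP_iff, Bool.not_eq_true]

theorem UW0 (n : ℕ) : UW e F G X (4 * n) ↔ X n = true := by
  unfold UW
  rw [show 4 * n / 4 = n by omega, show 4 * n % 4 = 0 by omega]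
  simp

theorem UW1 (n : ℕ) : UW e F G X (4 * n + 1) ↔ U1 e F G X n := by
  unfold UW
  rw [show (4 * n + 1) / 4 = n by omega, show (4 * n + 1) % 4 = 1 by omega]
  simp

theorem UW2 (n : ℕ) : UW e F G X (4 * n + 2) ↔ U2 e F G X n := by
  unfold UW
  rw [show (4 * n + 2) / 4 = n by omega, show (4 * n + 2) % 4 = 2 by omega]
  simp

theorem UW3 (n : ℕ) : UW e F G X (4 * n + 3) ↔ U3 e F G X n := by
  unfold UW
  rw [show (4 * n + 3) / 4 = n by omega, show (4 * n + 3) % 4 = 3 by omega]
  simp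

theorem le_WP (X : ℕ → Bool) : TLe X (WP e F G X) := by
  have hf : Computable fun n : ℕ => 4 * n := by
    have : Primrec fun n : ℕ => 4 * n := by fun_prop
    exact this.to_comp
  refine tLe_of_computable hf fun n => ?_
  rw [Bool.eq_iff_iff, WP_iff, UW0]

section

variable (pF : Primrec F) (pG : Primrec G)

include pF pG

omit pF in
theorem pH1 : Primrec fun x : ℕ × List Bool => (fun n σ => G^[n] σ) x.1 x.2 :=
  pf_iter pG (by fun_prop) (by fun_prop)

theorem pR1 : PrimrecPred fun x : ℕ × List Bool × ℕ => LL F G x.1 x.2.1 x.2.2 :=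
  pp_LL pF pG (by fun_prop) (by fun_prop) (by fun_prop)

omit pG in
theorem pH2 : Primrec fun x : ℕ × List Bool => (fun n σ => F^[n] σ) x.1 x.2 :=
  pf_iter pF (by fun_prop) (by fun_prop)

theorem pH3 : Primrec fun x : ℕ × List Bool => (fun _ σ => JJ F G σ) x.1 x.2 :=
  (pf_JJ pF pG).comp Primrec.snd

theorem si_UW (X : ℕ → Bool) : SI X (UW e F G X) := by
  refine SI.or (SI.and (SI.of_prim (pp_eq (by fun_prop) (by fun_prop)))
    (SI.query.comp (f := fun m : ℕ => (m / 4, true)) (by fun_prop))) (SI.or (SI.and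
    (SI.of_prim (pp_eq (by fun_prop) (by fun_prop))) ?_) (SI.or (SI.and
    (SI.of_prim (pp_eq (by fun_prop) (by fun_prop))) ?_) (SI.and
    (SI.of_prim (pp_eq (by fun_prop) (by fun_prop))) ?_)))
  · exact (si_U (pH1 pG) (pR1 pF pG) X).comp (f := fun m : ℕ => m / 4) (by fun_prop)
  · exact (si_U (pH2 pF) (pp_RR pF pG) X).comp (f := fun m : ℕ => m / 4) (by fun_prop)
  · exact (si_U (pH3 pF pG) (pp_II pF pG) X).comp (f := fun m : ℕ => m / 4) (by fun_prop)

theorem WP_le {V : ℕ → Bool} (hX : TLe X V) (h1 : SI V fun m => ¬ U1 e F G X m)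
    (h2 : SI V fun m => ¬ U2 e F G X m) (h3 : SI V fun m => ¬ U3 e F G X m) :
    TLe (WP e F G X) V := by
  have hpos : SI V (UW e F G X) := (si_UW pF pG X).trans hX
  have hneg : SI V fun m => ¬ UW e F G X m := by
    have g0 : SI V fun m : ℕ => m % 4 = 0 ∧ X (m / 4) = false :=
      SI.and (SI.of_prim (pp_eq (by fun_prop) (by fun_prop)))
        (((SI.query (B := X)).trans hX).comp (f := fun m : ℕ => (m / 4, false)) (by fun_prop))
    have g1 : SI V fun m : ℕ => m % 4 = 1 ∧ ¬ U1 e F G X (m / 4) :=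
      SI.and (SI.of_prim (pp_eq (by fun_prop) (by fun_prop)))
        (h1.comp (f := fun m : ℕ => m / 4) (by fun_prop))
    have g2 : SI V fun m : ℕ => m % 4 = 2 ∧ ¬ U2 e F G X (m / 4) :=
      SI.and (SI.of_prim (pp_eq (by fun_prop) (by fun_prop)))
        (h2.comp (f := fun m : ℕ => m / 4) (by fun_prop))
    have g3 : SI V fun m : ℕ => m % 4 = 3 ∧ ¬ U3 e F G X (m / 4) :=
      SI.and (SI.of_prim (pp_eq (by fun_prop) (by fun_prop)))
        (h3.comp (f := fun m : ℕ => m / 4) (by fun_prop))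
    refine (SI.or g0 (SI.or g1 (SI.or g2 g3))).of_eq fun m => ?_
    unfold UW
    have hm : m % 4 < 4 := Nat.mod_lt _ (by norm_num)
    cases hx : X (m / 4) <;> (interval_cases h : m % 4 <;> simp)
  rw [tLe_iff_SI]
  have h4 : SI V fun x : ℕ × Bool => (UW e F G X x.1 ∧ x.2 = true) ∨
      (¬ UW e F G X x.1 ∧ x.2 = false) := by
    refine SI.or (SI.and (hpos.comp Primrec.fst) (SI.of_prim ?_))
      (SI.and (hneg.comp (f := fun x : ℕ × Bool => x.1) Primrec.fst) (SI.of_prim ?_))
    · exact Primrec.eq.comp Primrec.snd (Primrec.const true)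
    · exact Primrec.eq.comp Primrec.snd (Primrec.const false)
  refine h4.of_eq fun x => ?_
  rcases x with ⟨n, b⟩
  cases b with
  | true => simp [WP_iff]
  | false => simp [WP_iff']

end

theorem si_not (X : ℕ → Bool) : (SI (WP e F G X) fun m => ¬ U1 e F G X m) ∧
    (SI (WP e F G X) fun m => ¬ U2 e F G X m) ∧ SI (WP e F G X) fun m => ¬ U3 e F G X m := by
  refine ⟨?_, ?_, ?_⟩
  · refine ((SI.query (B := WP e F G X)).comp (f := fun m : ℕ => (4 * m + 1, false))
      (by fun_prop)).of_eq fun m => ?_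
    rw [WP_iff', UW1]
  · refine ((SI.query (B := WP e F G X)).comp (f := fun m : ℕ => (4 * m + 2, false))
      (by fun_prop)).of_eq fun m => ?_
    rw [WP_iff', UW2]
  · refine ((SI.query (B := WP e F G X)).comp (f := fun m : ℕ => (4 * m + 3, false))
      (by fun_prop)).of_eq fun m => ?_
    rw [WP_iff', UW3]

/-- `WP` at `X` has the degree of the value of the given operator at `Z`. -/
structure Rp (e : ℕ) (F G : List Bool → List Bool) (X Z : ℕ → Bool) : Prop where
  zx : TLe Z X
  xz : TLe X Z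
  le : TLe (WP e F G X) (chr (WE Z e))
  ge : TLe (chr (WE Z e)) (WP e F G X)

theorem rp_of (pF : Primrec F) (pG : Primrec G) {Z : ℕ → Bool} (hZ : TLe Z (chr (WE Z e)))
    (zx : TLe Z X) (xz : TLe X Z)
    (hf : ∀ V, TLe X V → (SI V fun z => z ∉ WE Z e) → (SI V fun m => ¬ U1 e F G X m) ∧
      (SI V fun m => ¬ U2 e F G X m) ∧ SI V fun m => ¬ U3 e F G X m)
    (hb : (SI (WP e F G X) fun z => z ∉ WE Z e)) : Rp e F G X Z := by
  refine ⟨zx, xz, ?_, ?_⟩
  · have hX : TLe X (chr (WE Z e)) := TuringReducible.trans xz hZ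
    obtain ⟨h1, h2, h3⟩ := hf _ hX (by
      refine ((SI.query (B := chr (WE Z e))).comp (f := fun m : ℕ => (m, false))
        (by fun_prop)).of_eq fun m => ?_
      simp [chr])
    exact WP_le pF pG hX h1 h2 h3
  · have h1 : SI (WP e F G X) fun z => z ∈ WE Z e := by
      have h2 : SI Z fun z => z ∈ WE Z e :=
        SI.iff_ceIn.1 (ceIn_iff_exists_WE.2 ⟨e, rfl⟩)
      exact h2.trans (TuringReducible.trans zx (le_WP X))
    rw [tLe_iff_SI]
    have h4 : SI (WP e F G X) fun x : ℕ × Bool => (x.1 ∈ WE Z e ∧ x.2 = true) ∨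
        (x.1 ∉ WE Z e ∧ x.2 = false) := by
      refine SI.or (SI.and (h1.comp Primrec.fst) (SI.of_prim ?_))
        (SI.and (hb.comp (f := fun x : ℕ × Bool => x.1) Primrec.fst) (SI.of_prim ?_))
      · exact Primrec.eq.comp Primrec.snd (Primrec.const true)
      · exact Primrec.eq.comp Primrec.snd (Primrec.const false)
    refine h4.of_eq fun x => ?_
    rcases x with ⟨n, b⟩
    cases b <;> simp [chr]

variable (hF : Mon F) (hG : Mon G) (pF : Primrec F) (pG : Primrec G)
  (hp : ∀ Z : ℕ → Bool, TLe Z (chr (WE Z e)))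

include hF hG pF pG hp

theorem caseL {a : ℕ} {Z : ℕ → Bool} (h1 : ∀ q < a, Unb (AG F G q) X)
    (h2 : ¬ Unb (AG F G a) X) (hZ : Lim (G^[a]) X Z) : Rp e F G X Z := by
  have u1 : Unb (LL F G a) X := (unb_LL hF hG).2 h1
  have u2 : ¬ Unb (LL F G (a + 1)) X := fun h => h2 ((unb_LL hF hG).1 h a (Nat.lt_succ_self a))
  refine rp_of pF pG (hp Z) (hZ.le (pf_iter pG (by fun_prop) (by fun_prop)))
    ((back_iter hF hG h1 hZ).le (pf_iter pF (by fun_prop) (by fun_prop))) (fun V hV hW => ?_) ?_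
  · refine ⟨case_eq (pH1 pG) (pR1 pF pG) (cnt_LL hF hG) u1 u2 hZ hV hW,
      (case_bdd (cnt_RR hF hG) fun h => h2 (((unb_RR hF hG).1 h).1 a)).trans hV,
      (case_bdd (cnt_II hF hG) fun h => h2 (((unb_II hF hG).1 h).1 a)).trans hV⟩
  · exact case_back (cnt_LL hF hG) u1 u2 hZ (si_not X).1

theorem caseR {b : ℕ} {Z : ℕ → Bool} (h0 : ∀ q, Unb (AG F G q) X)
    (h1 : ∀ q < b, Unb (AG G F q) X) (h2 : ¬ Unb (AG G F b) X) (hZ : Lim (F^[b]) X Z) :
    Rp e F G X Z := by
  have u1 : Unb (RR F G b) X := (unb_RR hF hG).2 ⟨h0, h1⟩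
  have u2 : ¬ Unb (RR F G (b + 1)) X :=
    fun h => h2 (((unb_RR hF hG).1 h).2 b (Nat.lt_succ_self b))
  refine rp_of pF pG (hp Z) (hZ.le (pf_iter pF (by fun_prop) (by fun_prop)))
    ((back_iter hG hF h1 hZ).le (pf_iter pG (by fun_prop) (by fun_prop))) (fun V hV hW => ?_) ?_
  · refine ⟨(case_unb (pH1 pG) (pR1 pF pG) (cnt_LL hF hG) fun n =>
        (unb_LL hF hG).2 fun q _ => h0 q).trans hV,
      case_eq (pH2 pF) (pp_RR pF pG) (cnt_RR hF hG) u1 u2 hZ hV hW,
      (case_bdd (cnt_II hF hG) fun h => h2 (((unb_II hF hG).1 h).2 b)).trans hV⟩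
  · exact case_back (cnt_RR hF hG) u1 u2 hZ (si_not X).2.1

theorem caseI {Z : ℕ → Bool} (h0 : ∀ q, Unb (AG F G q) X) (h1 : ∀ q, Unb (AG G F q) X)
    (hZ : Lim (JJ F G) X Z) (hZX : TLe X Z) : Rp e F G X Z := by
  have u1 : Unb (II F G 0) X := (unb_II hF hG).2 ⟨h0, h1⟩
  refine rp_of pF pG (hp Z) (hZ.le (pf_JJ pF pG)) hZX (fun V hV hW => ?_) ?_
  · refine ⟨(case_unb (pH1 pG) (pR1 pF pG) (cnt_LL hF hG) fun n =>
        (unb_LL hF hG).2 fun q _ => h0 q).trans hV,
      (case_unb (pH2 pF) (pp_RR pF pG) (cnt_RR hF hG) fun n =>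
        (unb_RR hF hG).2 ⟨h0, fun q _ => h1 q⟩).trans hV,
      case_eq (pH3 pF pG) (pp_II pF pG) (cnt_II hF hG) u1 not_unb_II hZ hV hW⟩
  · exact case_back (cnt_II hF hG) u1 not_unb_II hZ (si_not X).2.2

end

end Pool.Agent.TH769.TP
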