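import Pool.Agent.TH769.TP.Uni
import Pool.Agent.Helper227.VL

set_option autoImplicit false

/-!
Two pairs of programs are as hard as all pairs.
-/

namespace Pool.Agent.TH769.TP

open Encodable Pool.Agent.Helper227 Pool.Agent.H548R2.Post
open Nat.Partrec (Code)
open Pool.Agent.TH769.ZA (pf_sub)
open Pool.Agent.TH769.CD (pf_add pf_take pf_length pp_eq pp_le pp_lt pf_decide pf_append pf_cons
  pf_encode pf_range pf_div pf_mod pf_getD)

attribute [local fun_prop] Primrec
attribute [local fun_prop] Primrec.id Primrec.const Primrec.comp Primrec.pair Primrec.fst Primrec.snd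
attribute [local fun_prop] pf_add pf_take pf_length pf_sub pf_append pf_cons pf_encode pf_range
  pf_div pf_mod pf_getD

/-- The index `e` solves Post's problem for all oracles. -/
def Sol (e : ℕ) : Prop := ∀ X : ℕ → Bool, TLe X (chr (WE X e)) ∧ ¬ TLe (chr (WE X e)) X ∧
  TLe (chr (WE X e)) (jump X) ∧ ¬ TLe (jump X) (chr (WE X e))

/-- The values of the operator with index `e` at `X` and `Y` have the same Turing degree. -/
def Same (e : ℕ) (X Y : ℕ → Bool) : Prop :=
  TLe (chr (WE X e)) (chr (WE Y e)) ∧ TLe (chr (WE Y e)) (chr (WE X e))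

/-- The sequence `0 X`. -/
def zer (X : ℕ → Bool) : ℕ → Bool := fun k => if k = 0 then false else X (k - 1)

theorem Same.symm {e : ℕ} {X Y : ℕ → Bool} (h : Same e X Y) : Same e Y X := ⟨h.2, h.1⟩

theorem Same.trans {e : ℕ} {X Y Z : ℕ → Bool} (h : Same e X Y) (h' : Same e Y Z) : Same e X Z :=
  ⟨TLe.trans h.1 h'.1, TLe.trans h'.2 h.2⟩

theorem Same.refl (e : ℕ) (X : ℕ → Bool) : Same e X X := ⟨TLe.refl _, TLe.refl _⟩

theorem subst_index {F : List Bool → List Bool} {M : (ℕ → Bool) → ℕ → Bool} (pF : Primrec F)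
    (h : ∀ X, Lim F X (M X)) (e : ℕ) : ∃ e' : ℕ, ∀ X, WE X e' = WE (M X) e := by
  have hS : S1 fun x : List Bool × ℕ => ∃ k, k < (F x.1).length + 1 ∧
      ((Denumerable.ofNat Code e).eval (encode ((F x.1).take k, x.2))).Dom := by
    refine S1.ex (p := fun (x : List Bool × ℕ) (k : ℕ) => k < (F x.1).length + 1 ∧
      ((Denumerable.ofNat Code e).eval (encode ((F x.1).take k, x.2))).Dom) (S1.and ?_ ?_)
    · have h1 : Primrec fun x : (List Bool × ℕ) × ℕ => (F x.1.1).length + 1 :=
        pf_add (pf_length (pF.comp (Primrec.fst.comp Primrec.fst))) (Primrec.const 1)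
      exact S1.of_prim (pp_lt Primrec.snd h1)
    · have h1 : Primrec fun x : (List Bool × ℕ) × ℕ =>
          (Denumerable.ofNat Code e, encode ((F x.1.1).take x.2, x.1.2)) :=
        (Primrec.const _).pair (Primrec.encode.comp
          ((pf_take Primrec.snd (pF.comp (Primrec.fst.comp Primrec.fst))).pair
            (Primrec.snd.comp Primrec.fst)))
      exact S1.comp (f := fun x : (List Bool × ℕ) × ℕ =>
        (Denumerable.ofNat Code e, encode ((F x.1.1).take x.2, x.1.2))) s1_eval h1
  obtain ⟨c, hc⟩ := Nat.Partrec.Code.exists_code.1 hS.re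
  refine ⟨encode c, fun X => ?_⟩
  ext m
  simp only [WE, Set.mem_ofPred_eq, Denumerable.ofNat_encode]
  have h1 : (∃ s : ℕ, (c.eval (encode ((List.range s).map X, m))).Dom) ↔
      ∃ s : ℕ, ∃ k, k < (F (pre X s)).length + 1 ∧
        ((Denumerable.ofNat Code e).eval (encode ((F (pre X s)).take k, m))).Dom := by
    refine exists_congr fun s => ?_
    rw [hc]
    simp [Part.assert, pre]
  rw [h1]
  constructor
  · rintro ⟨s, k, h2, h3⟩
    obtain ⟨n, h4⟩ := (h X).ok s
    rw [h4] at h2 h3
    rw [length_pre] at h2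
    rw [take_pre _ _ _ (by omega)] at h3
    exact ⟨k, h3⟩
  · rintro ⟨k, h2⟩
    obtain ⟨s, hs⟩ := (h X).long k
    obtain ⟨n, h4⟩ := (h X).ok s
    have h5 := hs s le_rfl
    refine ⟨s, k, by omega, ?_⟩
    rw [h4, length_pre] at h5
    rw [h4, take_pre _ _ _ h5]
    exact h2

theorem sol_subst {M : (ℕ → Bool) → ℕ → Bool} {e e' : ℕ} (h : Sol e)
    (he : ∀ X, WE X e' = WE (M X) e) (h1 : ∀ X, TLe X (M X)) (h2 : ∀ X, TLe (M X) X) : Sol e' := by
  intro X
  obtain ⟨a1, a2, a3, a4⟩ := h (M X)
  rw [he]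
  exact ⟨(h1 X).trans a1, fun h => a2 (h.trans (h1 X)), a3.trans (h2 X).jump,
    fun h => a4 ((h2 X).jump.trans h)⟩

theorem same_subst {M : (ℕ → Bool) → ℕ → Bool} {e e' : ℕ}
    (he : ∀ X, WE X e' = WE (M X) e) {X Y : ℕ → Bool} : Same e' X Y ↔ Same e (M X) (M Y) := by
  unfold Same
  rw [he, he]

theorem exists_via {F : List Bool → List Bool} (pF : Primrec F) :
    ∃ c : Code, ∀ X Y : ℕ → Bool, Lim F X Y → Via c X Y := by
  have h1 : Computable fun x : List Bool × ℕ => ((F x.1)[x.2]?).map fun b => cond b 1 0 := by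
    refine Primrec.to_comp (Primrec.option_map
      (Primrec.list_getElem?.comp (pF.comp Primrec.fst) Primrec.snd) ?_)
    exact Primrec.cond Primrec.snd (Primrec.const 1) (Primrec.const 0)
  obtain ⟨c, hc⟩ := Nat.Partrec.Code.exists_code.1 (Computable.ofOption h1)
  refine ⟨c, fun X Y h n v => ?_⟩
  have hev : ∀ σ : List Bool, v ∈ c.eval (encode (σ, n)) ↔
      ((F σ)[n]?).map (fun b => cond b 1 0) = some v := by
    intro σ
    rw [hc]
    simp
  simp only [hev]
  constructor
  · rintro ⟨s, hs⟩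
    obtain ⟨m, h4⟩ := h.ok s
    rw [h4] at hs
    by_cases hm : n < m
    · rw [pre_getElem? _ _ _ hm] at hs
      simp only [Option.map_some, Option.some.injEq] at hs
      rw [← hs]
      cases Y n <;> rfl
    · rw [pre_getElem?_none _ _ _ (by omega)] at hs
      cases hs
  · intro hv
    obtain ⟨s, hs⟩ := h.long (n + 1)
    obtain ⟨m, h4⟩ := h.ok s
    have h5 := hs s le_rfl
    rw [h4, length_pre] at h5
    refine ⟨s, ?_⟩
    rw [h4, pre_getElem? _ _ _ (by omega), hv]
    cases Y n <;> rfl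

theorem lim_zer (X : ℕ → Bool) : Lim (fun σ => false :: σ) X (zer X) := by
  have h1 : ∀ s, false :: pre X s = pre (zer X) (s + 1) := by
    intro s
    refine List.ext_getElem (by simp) fun k h2 h3 => ?_
    rw [getElem_pre, List.getElem_cons]
    unfold zer
    by_cases hk : k = 0
    · rw [dif_pos hk, if_pos hk]
    · rw [dif_neg hk, if_neg hk, getElem_pre]
  refine ⟨fun s => ⟨s + 1, h1 s⟩, fun N => ⟨N, fun s hs => ?_⟩⟩
  rw [List.length_cons, length_pre]
  omega

theorem lim_tl (X : ℕ → Bool) : Lim (fun σ => σ.drop 1) (zer X) X := by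
  have h1 : ∀ s, (pre (zer X) s).drop 1 = pre X (s - 1) := by
    intro s
    refine List.ext_getElem (by simp) fun k h2 h3 => ?_
    rw [List.getElem_drop, getElem_pre, getElem_pre]
    unfold zer
    rw [if_neg (by omega)]
    congr 1
    omega
  refine ⟨fun s => ⟨s - 1, h1 s⟩, fun N => ⟨N + 1, fun s hs => ?_⟩⟩
  rw [h1, length_pre]
  omega

theorem lab_succ (n : ℕ) (X : ℕ → Bool) : lab (n + 1) X = zer (lab n X) := by
  funext k
  change (if k < n + 1 then false else if k = n + 1 then true else X (k - (n + 1) - 1)) =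
    if k = 0 then false else
      if k - 1 < n then false else if k - 1 = n then true else X (k - 1 - n - 1)
  by_cases h1 : k = 0
  · rw [if_pos h1, if_pos (by omega)]
  · rw [if_neg h1]
    by_cases h2 : k < n + 1
    · rw [if_pos h2, if_pos (by omega)]
    · rw [if_neg h2, if_neg (by omega : ¬ k - 1 < n)]
      by_cases h3 : k = n + 1
      · rw [if_pos h3, if_pos (by omega)]
      · rw [if_neg h3, if_neg (by omega)]
        congr 1
        omega

theorem lim_lab (n : ℕ) (X : ℕ → Bool) :
    Lim (fun σ => (List.replicate n false ++ true :: σ).take σ.length) X (lab n X) := by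
  have h1 : ∀ s, (List.replicate n false ++ true :: pre X s).take (pre X s).length =
      pre (lab n X) s := by
    intro s
    rw [← pre_lab, length_pre, take_pre _ _ _ (by omega)]
  refine ⟨fun s => ⟨s, h1 s⟩, fun N => ⟨N, fun s hs => ?_⟩⟩
  rw [h1, length_pre]
  exact hs

/-- the string function for the join with the empty set -/
def ev (σ : List Bool) : List Bool :=
  (List.range σ.length).map fun k => cond (decide (k % 2 = 0)) (σ.getD (k / 2) false) false

theorem pf_ev : Primrec ev := by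
  have h : Primrec fun x : List Bool × ℕ =>
      cond (decide (x.2 % 2 = 0)) (x.1.getD (x.2 / 2) false) false :=
    Primrec.cond (pf_decide (pp_eq (by fun_prop) (by fun_prop)) _) (by fun_prop) (by fun_prop)
  exact Primrec.list_map (pf_range (pf_length Primrec.id)) h

theorem lim_ev (X : ℕ → Bool) : Lim ev X (join X fun _ => false) := by
  have h1 : ∀ s, ev (pre X s) = pre (join X fun _ => false) s := by
    intro s
    unfold ev
    refine List.ext_getElem (by simp) fun k h2 h3 => ?_
    rw [List.getElem_map, List.getElem_range, getElem_pre]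
    rw [length_pre] at h3
    unfold join
    by_cases hk : k % 2 = 0
    · rw [decide_eq_true hk, cond_true, if_pos hk, pre_getD _ _ _ _ (by omega)]
    · rw [decide_eq_false hk, cond_false, if_neg hk]
  refine ⟨fun s => ⟨s, h1 s⟩, fun N => ⟨N, fun s hs => ?_⟩⟩
  rw [h1, length_pre]
  exact hs

theorem fal_le (X : ℕ → Bool) : TLe (fun _ => false) X := by
  have h1 : ∀ s, List.replicate (pre X s).length false = pre (fun _ => false) s := by
    intro s
    refine List.ext_getElem (by simp) fun k h2 h3 => ?_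
    rw [List.getElem_replicate, getElem_pre]
  have h : Lim (fun σ : List Bool => List.replicate σ.length false) X (fun _ => false) := by
    refine ⟨fun s => ⟨s, h1 s⟩, fun N => ⟨N, fun s hs => ?_⟩⟩
    rw [List.length_replicate, length_pre]
    exact hs
  refine h.le ?_
  have h2 : Primrec fun σ : List Bool => (List.range σ.length).map fun _ => false :=
    Primrec.list_map (pf_range (pf_length Primrec.id)) (Primrec.const false)
  refine h2.of_eq fun σ => ?_
  simp

/-- A solution which is invariant for all Turing equivalences. -/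
def Inv (e : ℕ) : Prop := ∀ X Y : ℕ → Bool, TLe X Y → TLe Y X → Same e X Y

theorem two_pairs : ∃ i j k l : Code, (∀ X : ℕ → Bool, Via k X (zer X) ∧ Via l (zer X) X) ∧
    ((∃ e : ℕ, Sol e ∧ Inv e) ↔
      ∃ e : ℕ, Sol e ∧ (∀ X Y : ℕ → Bool, Via i X Y → Via j Y X → Same e X Y) ∧
        ∀ X Y : ℕ → Bool, Via k X Y → Via l Y X → Same e X Y) := by
  obtain ⟨i, hi⟩ := exists_uni (sel := Prod.fst) Computable.fst
  obtain ⟨j, hj⟩ := exists_uni (sel := Prod.snd) Computable.snd
  have p1 : Primrec fun σ : List Bool => false :: σ := by fun_prop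
  have p2 : Primrec fun σ : List Bool => σ.drop 1 :=
    Primrec.list_drop.comp (Primrec.const 1) Primrec.id
  obtain ⟨k, hk⟩ := exists_via p1
  obtain ⟨l, hl⟩ := exists_via p2
  refine ⟨i, j, k, l, fun X => ⟨hk _ _ (lim_zer X), hl _ _ (lim_tl X)⟩, ?_, ?_⟩
  · rintro ⟨e, h1, h2⟩
    exact ⟨e, h1, fun X Y a b => h2 X Y ((via_iff Y X).2 ⟨j, b⟩) ((via_iff X Y).2 ⟨i, a⟩),
      fun X Y a b => h2 X Y ((via_iff Y X).2 ⟨l, b⟩) ((via_iff X Y).2 ⟨k, a⟩)⟩
  · rintro ⟨e, h1, h2, h3⟩
    have h4 : ∀ n (X : ℕ → Bool), Same e (lab 0 X) (lab n X) := by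
      intro n X
      induction n with
      | zero => exact Same.refl _ _
      | succ n ih =>
        refine ih.trans ?_
        rw [lab_succ]
        exact h3 _ _ (hk _ _ (lim_zer _)) (hl _ _ (lim_tl _))
    obtain ⟨e', he'⟩ := subst_index (by fun_prop) (lim_lab 0) e
    refine ⟨e', sol_subst h1 he' (le_lab 0) (lab_le 0), fun X Y hXY hYX => ?_⟩
    rw [same_subst he']
    obtain ⟨a, ha⟩ := (via_iff X Y).1 hYX
    obtain ⟨b, hb⟩ := (via_iff Y X).1 hXY
    exact (h4 (encode (a, b)) X).trans ((h2 _ _ (hi a b X Y ha) (hj a b Y X hb)).trans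
      (h4 (encode (a, b)) Y).symm)

theorem swap_form : (∃ e : ℕ, Sol e ∧ Inv e) ↔
    ∃ e : ℕ, Sol e ∧ (∀ X Y : ℕ → Bool, Same e (join X Y) (join Y X)) ∧
      ∀ X Y Z : ℕ → Bool, TLe Y X → TLe Z X → Same e (join X Y) (join X Z) := by
  constructor
  · rintro ⟨e, h1, h2⟩
    refine ⟨e, h1, fun X Y => ?_, fun X Y Z hY hZ => ?_⟩
    · exact h2 _ _ (join_tLe (tLe_join_right _ _) (tLe_join_left _ _))
        (join_tLe (tLe_join_right _ _) (tLe_join_left _ _))
    · exact h2 _ _ ((join_tLe (TLe.refl X) hY).trans (tLe_join_left _ _))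
        ((join_tLe (TLe.refl X) hZ).trans (tLe_join_left _ _))
  · rintro ⟨e, h1, h2, h3⟩
    obtain ⟨e', he'⟩ := subst_index pf_ev lim_ev e
    refine ⟨e', sol_subst h1 he' (fun X => tLe_join_left _ _)
      (fun X => join_tLe (TLe.refl X) (fal_le X)), fun X Y hXY hYX => ?_⟩
    rw [same_subst he']
    exact (h3 X _ Y (fal_le X) hYX).trans ((h2 X Y).trans (h3 Y X _ hXY (fal_le Y)))

end Pool.Agent.TH769.TP
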